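import Pool.Agent.TH162.FC.Pack

/-!
# Bounded cross ratios on separated 4-tuples imply uniform quasi-Moebius distortion
-/

set_option autoImplicit false

open Filter Topology Set

namespace Pool.Agent.TH162.FC

section Bounds

variable {G : Type} [Group G] {X : Type} [MetricSpace X] {Y : Type} [MetricSpace Y]

/-- Images of 4-tuples with all six distances at least `ε` have cross ratio at most `N`. -/
def BBound (α : G →* (X ≃ₜ X)) (f : X → Y) (ε N : ℝ) : Prop :=
  ∀ (k : G) (a b c d : X), ε ≤ dist a b → ε ≤ dist a c → ε ≤ dist a d → ε ≤ dist b c →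
    ε ≤ dist b d → ε ≤ dist c d →
    dist (f (α k a)) (f (α k c)) * dist (f (α k b)) (f (α k d)) ≤
      N * (dist (f (α k a)) (f (α k d)) * dist (f (α k b)) (f (α k c)))

/-- Images of 4-tuples `a, b, c, d` with `a, b` far from `c, d` have cross ratio at most `N`. -/
def PBound (α : G →* (X ≃ₜ X)) (f : X → Y) (ε N : ℝ) : Prop :=
  ∀ (k : G) (a b c d : X), ε ≤ dist a c → ε ≤ dist a d → ε ≤ dist b c → ε ≤ dist b d →
    dist (f (α k a)) (f (α k c)) * dist (f (α k b)) (f (α k d)) ≤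
      N * (dist (f (α k a)) (f (α k d)) * dist (f (α k b)) (f (α k c)))

theorem far_point [Infinite X] : ∃ ε : ℝ, 0 < ε ∧ ∀ s : Finset X, s.card ≤ 5 →
    ∃ x : X, ∀ y ∈ s, ε ≤ dist x y := by
  set e := Infinite.natEmbedding X
  -- a positive lower bound for the distances of six points
  have h1 : ∃ δ : ℝ, 0 < δ ∧ ∀ i ∈ Finset.range 6, ∀ j ∈ Finset.range 6, i ≠ j →
      δ ≤ dist (e i) (e j) := by
    have hne : ((Finset.range 6 ×ˢ Finset.range 6).filter fun p => p.1 ≠ p.2).Nonempty :=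
      ⟨(0, 1), by simp⟩
    obtain ⟨p, hp, hp'⟩ := Finset.exists_min_image _ (fun p : ℕ × ℕ => dist (e p.1) (e p.2)) hne
    simp only [Finset.mem_filter, Finset.mem_product] at hp
    refine ⟨dist (e p.1) (e p.2), dist_pos.2 fun h => hp.2 (e.injective h), ?_⟩
    intro i hi j hj hij
    exact hp' (i, j) (by simp only [Finset.mem_filter, Finset.mem_product]; exact ⟨⟨hi, hj⟩, hij⟩)
  obtain ⟨δ, hδ, hsep⟩ := h1
  refine ⟨δ / 2, by positivity, fun s hs => ?_⟩
  by_contra hcon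
  push Not at hcon
  choose f hf hf' using hcon
  obtain ⟨i, hi, j, hj, hij, hfij⟩ := Finset.exists_ne_map_eq_of_card_lt_of_maps_to
    (s := Finset.range 6) (t := s) (by simpa using Nat.lt_of_le_of_lt hs (by norm_num))
    (f := fun i => f (e i)) (fun i _ => hf (e i))
  have h2 := hsep i hi j hj hij
  have h3 := dist_triangle_right (e i) (e j) (f (e i))
  have h4 := hf' (e i)
  have h5 := hf' (e j)
  rw [← hfij] at h5
  linarith

theorem PBound.mono {α : G →* (X ≃ₜ X)} {f : X → Y} {ε N N' : ℝ} (h : PBound α f ε N)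
    (hN : N ≤ N') : PBound α f ε N' := fun k a b c d h1 h2 h3 h4 => (h k a b c d h1 h2 h3 h4).trans
      (mul_le_mul_of_nonneg_right hN (by positivity))

theorem p_of_b [Infinite X] {α : G →* (X ≃ₜ X)} {f : X → Y} (hf : Function.Injective f)
    (hB : ∀ ε > 0, ∃ N, BBound α f ε N) : ∀ ε > 0, ∃ N, 1 ≤ N ∧ PBound α f ε N := by
  intro ε hε
  obtain ⟨ε₁, hε₁, hfar⟩ := far_point (X := X)
  obtain ⟨N₀, hN₀⟩ := hB (min ε ε₁) (lt_min hε hε₁)
  set N := max N₀ 1 with hN
  have hN1 : 1 ≤ N := le_max_right _ _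
  have hb : BBound α f (min ε ε₁) N := fun k a b c d h1 h2 h3 h4 h5 h6 =>
    (hN₀ k a b c d h1 h2 h3 h4 h5 h6).trans
      (mul_le_mul_of_nonneg_right (le_max_left _ _) (by positivity))
  refine ⟨N ^ 4, one_le_pow₀ hN1, fun k a b c d hac had hbc hbd => ?_⟩
  classical
  obtain ⟨a', ha'⟩ := hfar {a, b, c, d} (Finset.card_le_four.trans (by norm_num))
  obtain ⟨c', hc'⟩ := hfar {a, b, c, d, a'} (Finset.card_le_five)
  simp only [Finset.mem_insert, Finset.mem_singleton, forall_eq_or_imp, forall_eq] at ha' hc'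
  obtain ⟨ha1, ha2, ha3, ha4⟩ := ha'
  obtain ⟨hc1, hc2, hc3, hc4, hc5⟩ := hc'
  have m1 : min ε ε₁ ≤ ε := min_le_left _ _
  have m2 : min ε ε₁ ≤ ε₁ := min_le_right _ _
  have cm : ∀ x y : X, dist x y = dist y x := dist_comm
  have hpos : ∀ x y : X, 0 < dist x y → 0 < dist (f (α k x)) (f (α k y)) := fun x y h =>
    dist_pos.2 fun he => (dist_pos.1 h) ((α k).injective (hf he))
  have i1 := hb k a a' c c' (m2.trans (by rw [cm]; exact ha1)) (m1.trans hac)
    (m2.trans (by rw [cm]; exact hc1)) (m2.trans ha3) (m2.trans (by rw [cm]; exact hc5))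
    (m2.trans (by rw [cm]; exact hc3))
  have i2 := hb k a a' c' d (m2.trans (by rw [cm]; exact ha1)) (m2.trans (by rw [cm]; exact hc1))
    (m1.trans had) (m2.trans (by rw [cm]; exact hc5)) (m2.trans ha4) (m2.trans hc4)
  have i3 := hb k a' b c c' (m2.trans ha2) (m2.trans ha3) (m2.trans (by rw [cm]; exact hc5))
    (m1.trans hbc) (m2.trans (by rw [cm]; exact hc2)) (m2.trans (by rw [cm]; exact hc3))
  have i4 := hb k a' b c' d (m2.trans ha2) (m2.trans (by rw [cm]; exact hc5)) (m2.trans ha4)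
    (m2.trans (by rw [cm]; exact hc2)) (m1.trans hbd) (m2.trans hc4)
  have q1 : 0 < dist (f (α k a')) (f (α k c')) := hpos _ _ (by rw [cm]; linarith)
  have q2 : 0 < dist (f (α k a)) (f (α k c')) := hpos _ _ (by rw [cm]; linarith)
  have q3 : 0 < dist (f (α k b)) (f (α k c')) := hpos _ _ (by rw [cm]; linarith)
  have q4 : 0 < dist (f (α k a')) (f (α k c)) := hpos _ _ (by linarith)
  have q5 : 0 < dist (f (α k a')) (f (α k d)) := hpos _ _ (by linarith)
  have j1 : dist (f (α k a)) (f (α k c)) * dist (f (α k a')) (f (α k d)) ≤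
      N ^ 2 * (dist (f (α k a)) (f (α k d)) * dist (f (α k a')) (f (α k c))) := by
    have := mul_le_mul i1 i2 (by positivity) (by positivity)
    have h0 : 0 < dist (f (α k a')) (f (α k c')) * dist (f (α k a)) (f (α k c')) := by positivity
    refine le_of_mul_le_mul_right ?_ h0
    calc _ = dist (f (α k a)) (f (α k c)) * dist (f (α k a')) (f (α k c')) *
          (dist (f (α k a)) (f (α k c')) * dist (f (α k a')) (f (α k d))) := by ring
      _ ≤ _ := this
      _ = _ := by ring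
  have j2 : dist (f (α k a')) (f (α k c)) * dist (f (α k b)) (f (α k d)) ≤
      N ^ 2 * (dist (f (α k a')) (f (α k d)) * dist (f (α k b)) (f (α k c))) := by
    have := mul_le_mul i3 i4 (by positivity) (by positivity)
    have h0 : 0 < dist (f (α k a')) (f (α k c')) * dist (f (α k b)) (f (α k c')) := by positivity
    refine le_of_mul_le_mul_right ?_ h0
    calc _ = dist (f (α k a')) (f (α k c)) * dist (f (α k b)) (f (α k c')) *
          (dist (f (α k a')) (f (α k c')) * dist (f (α k b)) (f (α k d))) := by ring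
      _ ≤ _ := this
      _ = _ := by ring
  have := mul_le_mul j1 j2 (by positivity) (by positivity)
  have h0 : 0 < dist (f (α k a')) (f (α k c)) * dist (f (α k a')) (f (α k d)) := by positivity
  refine le_of_mul_le_mul_right ?_ h0
  calc _ = dist (f (α k a)) (f (α k c)) * dist (f (α k a')) (f (α k d)) *
        (dist (f (α k a')) (f (α k c)) * dist (f (α k b)) (f (α k d))) := by ring
    _ ≤ _ := this
    _ = _ := by ring

end Bounds

section Equi

variable {G : Type} [Group G] {X : Type} [MetricSpace X] {Y : Type} [MetricSpace Y] {E : Type}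
  [NormedAddCommGroup E] [InnerProductSpace ℝ E] [FiniteDimensional ℝ E]

/-- The points `f i` of the chain approach `y₁`, and `(y₁, y₂, f i)` is separated by `g i`. -/
theorem chain {α : G →* (X ≃ₜ X)} {ε : ℝ} (hε : 0 < ε)
    (hco : ∀ x y z : X, x ≠ y → y ≠ z → x ≠ z → ∃ g : G,
      ε ≤ dist (α g x) (α g y) ∧ ε ≤ dist (α g y) (α g z) ∧ ε ≤ dist (α g x) (α g z))
    {y₁ y₂ : X} [(𝓝[≠] y₁).NeBot] (h12 : y₁ ≠ y₂) :
    ∃ (w : ℕ → X) (g : ℕ → G), (∀ i, dist (w i) y₁ < ε / 4) ∧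
      (∀ i, ε ≤ dist (α (g i) y₁) (α (g i) y₂)) ∧ (∀ i, ε ≤ dist (α (g i) y₂) (α (g i) (w i))) ∧
      (∀ i, ε ≤ dist (α (g i) y₁) (α (g i) (w i))) ∧
      ∀ i j, i < j → dist (α (g i) (w j)) (α (g i) y₁) < ε / 4 := by
  obtain ⟨f, hf, hf'⟩ := exists_seq_of_forall_finset_exists
    (P := fun p : X × G => dist p.1 y₁ < ε / 4 ∧ ε ≤ dist (α p.2 y₁) (α p.2 y₂) ∧
      ε ≤ dist (α p.2 y₂) (α p.2 p.1) ∧ ε ≤ dist (α p.2 y₁) (α p.2 p.1))
    (r := fun p q : X × G => dist (α p.2 q.1) (α p.2 y₁) < ε / 4) (by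
      intro s _
      have h1 : ∀ᶠ w in 𝓝[≠] y₁, ∀ p ∈ s, dist (α p.2 w) (α p.2 y₁) < ε / 4 := by
        rw [Filter.eventually_all_finset]
        intro p _
        have : Tendsto (fun w => dist (α p.2 w) (α p.2 y₁)) (𝓝 y₁) (𝓝 0) := by
          have hc : Continuous fun w => dist (α p.2 w) (α p.2 y₁) :=
            (α p.2).continuous.dist continuous_const
          have := hc.tendsto y₁
          simpa using this
        exact (this.mono_left nhdsWithin_le_nhds).eventually_lt_const (by positivity)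
      have h2 : ∀ᶠ w in 𝓝[≠] y₁, dist w y₁ < ε / 4 :=
        nhdsWithin_le_nhds (Metric.ball_mem_nhds y₁ (by positivity))
      have h3 : ∀ᶠ w in 𝓝[≠] y₁, w ≠ y₂ :=
        nhdsWithin_le_nhds (isOpen_compl_singleton.mem_nhds h12)
      have h4 : ∀ᶠ w in 𝓝[≠] y₁, w ≠ y₁ := eventually_mem_nhdsWithin
      obtain ⟨w, hw1, hw2, hw3, hw4⟩ := (h1.and (h2.and (h3.and h4))).exists
      obtain ⟨g, hg1, hg2, hg3⟩ := hco y₁ y₂ w h12 hw3.symm hw4.symm
      exact ⟨(w, g), ⟨hw2, hg1, hg2, hg3⟩, fun p hp => hw1 p hp⟩)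
  exact ⟨fun i => (f i).1, fun i => (f i).2, fun i => (hf i).1, fun i => (hf i).2.1,
    fun i => (hf i).2.2.1, fun i => (hf i).2.2.2, fun i j hij => hf' i j hij⟩

omit [FiniteDimensional ℝ E] in
theorem dist_inv (c u v : E) (hu : u ≠ c) (hv : v ≠ c) :
    dist (EuclideanGeometry.inversion c 1 u) (EuclideanGeometry.inversion c 1 v) =
      dist u v / (dist u c * dist v c) := by
  rw [EuclideanGeometry.dist_inversion_inversion hu hv]
  ring

/-- The packing argument: a chain of points with controlled cross ratios has bounded length. -/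
theorem no_long_chain (ι : Y → E) (hι : Isometry ι) {θ N : ℝ} (hθ : 0 < θ) (hN : 1 ≤ N) :
    ∃ M : ℕ, ∀ (y₁ y₂ y₄ : Y) (p : ℕ → Y), y₁ ≠ y₂ → y₄ ≠ y₂ → (∀ i, p i ≠ y₂) → p 0 ≠ y₁ →
      (∀ i ≤ M, dist (p i) y₁ * dist y₂ y₄ ≤ N * (dist (p i) y₄ * dist y₂ y₁)) →
      (∀ i ≤ M, dist (p i) y₄ * dist y₂ y₁ ≤ N * (dist (p i) y₁ * dist y₂ y₄)) →
      (∀ i j, i < j → j ≤ M →
        dist (p i) y₁ * dist y₂ (p j) ≤ N * (dist (p i) (p j) * dist y₂ y₁)) →
      (∀ j, 0 < j → j ≤ M →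
        dist (p 0) (p j) * dist y₂ y₁ ≤ N * (dist (p 0) y₁ * dist y₂ (p j))) →
      dist y₁ y₄ * dist y₂ (p 0) ≤ θ * (dist y₁ y₂ * dist (p 0) y₄) := by
  have hN0 : 0 < N := by linarith
  obtain ⟨M, hM⟩ := packing (E := E) (θ / (N ^ 2 * (1 + N) ^ 2)) (by positivity)
  refine ⟨M, fun y₁ y₂ y₄ p h12 h42 hp2 hp1 H1 H2 H3 H4 => ?_⟩
  by_contra hcon
  push Not at hcon
  set v : Y → E := fun u => EuclideanGeometry.inversion (ι y₂) 1 (ι u) with hv
  have hD : ∀ u u' : Y, u ≠ y₂ → u' ≠ y₂ → dist (v u) (v u') = dist u u' /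
      (dist u y₂ * dist u' y₂) := by
    intro u u' hu hu'
    rw [hv]
    simp only
    rw [dist_inv _ _ _ (hι.injective.ne hu) (hι.injective.ne hu'), hι.dist_eq, hι.dist_eq,
      hι.dist_eq]
  have hpos : ∀ u : Y, u ≠ y₂ → 0 < dist u y₂ := fun u hu => dist_pos.2 hu
  have e1 := hpos y₁ h12
  have e4 := hpos y₄ h42
  -- rewrite the hypotheses with the distances of the inverted points
  have K1 : ∀ i ≤ M, dist (v (p i)) (v y₁) ≤ N * dist (v (p i)) (v y₄) := by
    intro i hi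
    have h := H1 i hi
    have ei := hpos _ (hp2 i)
    rw [hD _ _ (hp2 i) h12, hD _ _ (hp2 i) h42, div_le_iff₀ (by positivity)]
    rw [dist_comm y₂ y₄, dist_comm y₂ y₁] at h
    have : N * (dist (p i) y₄ / (dist (p i) y₂ * dist y₄ y₂)) * (dist (p i) y₂ * dist y₁ y₂) =
        N * (dist (p i) y₄ * dist y₁ y₂) / dist y₄ y₂ := by field_simp
    rw [this, le_div_iff₀ e4]
    exact h
  have K2 : ∀ i ≤ M, dist (v (p i)) (v y₄) ≤ N * dist (v (p i)) (v y₁) := by
    intro i hi
    have h := H2 i hi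
    have ei := hpos _ (hp2 i)
    rw [hD _ _ (hp2 i) h12, hD _ _ (hp2 i) h42, div_le_iff₀ (by positivity)]
    rw [dist_comm y₂ y₄, dist_comm y₂ y₁] at h
    have : N * (dist (p i) y₁ / (dist (p i) y₂ * dist y₁ y₂)) * (dist (p i) y₂ * dist y₄ y₂) =
        N * (dist (p i) y₁ * dist y₄ y₂) / dist y₁ y₂ := by field_simp
    rw [this, le_div_iff₀ e1]
    exact h
  have K3 : ∀ i j, i < j → j ≤ M → dist (v (p i)) (v y₁) ≤ N * dist (v (p i)) (v (p j)) := by
    intro i j hij hj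
    have h := H3 i j hij hj
    have ei := hpos _ (hp2 i)
    have ej := hpos _ (hp2 j)
    rw [hD _ _ (hp2 i) h12, hD _ _ (hp2 i) (hp2 j), div_le_iff₀ (by positivity)]
    rw [dist_comm y₂ (p j), dist_comm y₂ y₁] at h
    have : N * (dist (p i) (p j) / (dist (p i) y₂ * dist (p j) y₂)) *
        (dist (p i) y₂ * dist y₁ y₂) = N * (dist (p i) (p j) * dist y₁ y₂) / dist (p j) y₂ := by
      field_simp
    rw [this, le_div_iff₀ ej]
    exact h
  have K4 : ∀ j, 0 < j → j ≤ M → dist (v (p 0)) (v (p j)) ≤ N * dist (v (p 0)) (v y₁) := by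
    intro j hj0 hj
    have h := H4 j hj0 hj
    have ei := hpos _ (hp2 0)
    have ej := hpos _ (hp2 j)
    rw [hD _ _ (hp2 0) h12, hD _ _ (hp2 0) (hp2 j), div_le_iff₀ (by positivity)]
    rw [dist_comm y₂ (p j), dist_comm y₂ y₁] at h
    have : N * (dist (p 0) y₁ / (dist (p 0) y₂ * dist y₁ y₂)) *
        (dist (p 0) y₂ * dist (p j) y₂) = N * (dist (p 0) y₁ * dist (p j) y₂) / dist y₁ y₂ := by
      field_simp
    rw [this, le_div_iff₀ e1]
    exact h
  have K5 : θ * dist (v (p 0)) (v y₄) < dist (v y₁) (v y₄) := by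
    have e0 := hpos _ (hp2 0)
    rw [hD _ _ (hp2 0) h42, hD _ _ h12 h42, lt_div_iff₀ (by positivity)]
    rw [dist_comm y₂ (p 0)] at hcon
    have : θ * (dist (p 0) y₄ / (dist (p 0) y₂ * dist y₄ y₂)) * (dist y₁ y₂ * dist y₄ y₂) =
        θ * (dist y₁ y₂ * dist (p 0) y₄) / dist (p 0) y₂ := by field_simp
    rw [this, div_lt_iff₀ e0]
    exact hcon
  set r : ℕ → ℝ := fun i => dist (v (p i)) (v y₁) with hr
  have hr0 : 0 < r 0 := by
    rw [hr]
    simp only
    rw [hD _ _ (hp2 0) h12]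
    have := hpos _ (hp2 0)
    have := dist_pos.2 hp1
    positivity
  have L1 : θ * r 0 ≤ N * dist (v y₁) (v y₄) := by
    have h1 := K1 0 (Nat.zero_le _)
    have h2 := mul_le_mul_of_nonneg_left h1 hθ.le
    have h3 := mul_le_mul_of_nonneg_left K5.le hN0.le
    calc θ * r 0 ≤ θ * (N * dist (v (p 0)) (v y₄)) := h2
      _ = N * (θ * dist (v (p 0)) (v y₄)) := by ring
      _ ≤ _ := h3
  have L2 : ∀ i ≤ M, dist (v y₁) (v y₄) ≤ (1 + N) * r i := by
    intro i hi
    have h1 := K2 i hi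
    have h2 := dist_triangle_left (v y₁) (v y₄) (v (p i))
    have h3 : (1 + N) * r i = dist (v (p i)) (v y₁) + N * dist (v (p i)) (v y₁) := by
      rw [hr]; ring
    rw [h3]
    linarith
  refine hM (v y₁) ((1 + N) * r 0) (by positivity) (fun i => v (p (min i M))) ?_ ?_
  · intro i
    have hi : min i M ≤ M := min_le_right _ _
    rcases Nat.eq_zero_or_pos (min i M) with h | h
    · simp only [h]
      change r 0 ≤ _
      nlinarith
    · have h1 := K4 _ h hi
      have h2 := dist_triangle_left (v (p (min i M))) (v y₁) (v (p 0))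
      have h3 : (1 + N) * r 0 = dist (v (p 0)) (v y₁) + N * dist (v (p 0)) (v y₁) := by
        rw [hr]; ring
      rw [h3]
      linarith
  · intro i j hij hj
    have hi : min i M = i := min_eq_left (by omega)
    have hj' : min j M = j := min_eq_left hj
    simp only [hi, hj']
    have h1 := K3 i j hij hj
    have h2 := L2 i (by omega)
    have h3 : θ * r 0 ≤ N * ((1 + N) * (N * dist (v (p i)) (v (p j)))) :=
      L1.trans (mul_le_mul_of_nonneg_left (h2.trans (mul_le_mul_of_nonneg_left h1 (by positivity)))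
        hN0.le)
    have h4 : θ / (N ^ 2 * (1 + N) ^ 2) * ((1 + N) * r 0) = θ * r 0 / (N ^ 2 * (1 + N)) := by
      field_simp
    rw [h4, div_le_iff₀ (by positivity)]
    calc _ ≤ _ := h3
      _ = _ := by ring

/-- Equicontinuity of the normalized family: if `y₄` is close to `y₁` then the images of `y₄` and
`y₁` are relatively close. -/
theorem equi [CompactSpace X] (hperf : ∀ x : X, (𝓝[≠] x).NeBot) (ι : Y → E)
    (hι : Isometry ι) {α : G →* (X ≃ₜ X)} {f : X → Y} (hf : Function.Injective f) {ε : ℝ}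
    (hε : 0 < ε)
    (hco : ∀ x y z : X, x ≠ y → y ≠ z → x ≠ z → ∃ g : G,
      ε ≤ dist (α g x) (α g y) ∧ ε ≤ dist (α g y) (α g z) ∧ ε ≤ dist (α g x) (α g z))
    (hP : ∀ ε > 0, ∃ N, 1 ≤ N ∧ PBound α f ε N) {θ : ℝ} (hθ : 0 < θ) :
    ∃ δ > 0, ∀ (k : G) (y₁ y₂ y₃ y₄ : X), ε ≤ dist y₁ y₂ → ε ≤ dist y₂ y₃ → ε ≤ dist y₁ y₃ →
      dist y₁ y₄ < δ → dist (f (α k y₁)) (f (α k y₄)) * dist (f (α k y₂)) (f (α k y₃)) ≤
        θ * (dist (f (α k y₁)) (f (α k y₂)) * dist (f (α k y₃)) (f (α k y₄))) := by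
  by_contra hcon
  push Not at hcon
  have hcon' := fun m : ℕ => hcon (1 / ((m : ℝ) + 1)) (by positivity)
  choose k y₁ y₂ y₃ y₄ h12 h23 h13 h14 hbad using hcon'
  obtain ⟨N, hN, hPN⟩ := hP (ε / 2) (by positivity)
  obtain ⟨M, hM⟩ := no_long_chain ι hι hθ hN
  obtain ⟨⟨z₁, z₂⟩, φ, hφ, hlim⟩ := CompactSpace.tendsto_subseq fun m => (y₁ m, y₂ m)
  rw [Prod.tendsto_iff] at hlim
  obtain ⟨hl1, hl2⟩ := hlim
  simp only [Function.comp_def] at hl1 hl2
  have hz : z₁ ≠ z₂ := by
    intro h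
    have h1 : Tendsto (fun m => dist (y₁ (φ m)) (y₂ (φ m))) atTop (𝓝 (dist z₁ z₂)) :=
      hl1.dist hl2
    have h2 : ε ≤ dist z₁ z₂ := ge_of_tendsto' h1 fun m => h12 _
    rw [h, dist_self] at h2
    linarith
  have hl4 : Tendsto (fun m => y₄ (φ m)) atTop (𝓝 z₁) := by
    have h1 : Tendsto (fun m : ℕ => 1 / (((φ m : ℕ) : ℝ) + 1)) atTop (𝓝 0) :=
      tendsto_one_div_add_atTop_nhds_zero_nat.comp hφ.tendsto_atTop
    have h2 : Tendsto (fun m => dist (y₁ (φ m)) (y₄ (φ m))) atTop (𝓝 0) :=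
      squeeze_zero (fun m => dist_nonneg) (fun m => (h14 (φ m)).le) h1
    rw [tendsto_iff_dist_tendsto_zero] at hl1 ⊢
    refine squeeze_zero (fun m => dist_nonneg) (fun m => ?_) (by simpa using h2.add hl1)
    exact dist_triangle_left (y₄ (φ m)) z₁ (y₁ (φ m))
  have := hperf z₁
  obtain ⟨w, g, hw1, hg12, hg2w, hg1w, hgw⟩ := chain hε hco hz
  have ev : ∀ᶠ m in atTop, (∀ i ∈ Finset.range (M + 1),
      dist (α (g i) (y₁ (φ m))) (α (g i) z₁) < ε / 4 ∧
      dist (α (g i) (y₄ (φ m))) (α (g i) z₁) < ε / 4 ∧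
      dist (α (g i) (y₂ (φ m))) (α (g i) z₂) < ε / 4) ∧ dist (y₁ (φ m)) z₁ < ε / 4 ∧
      dist (y₄ (φ m)) z₁ < ε / 4 := by
    have hc : ∀ (u : ℕ → X) (z : X) (g : G), Tendsto u atTop (𝓝 z) →
        ∀ᶠ m in atTop, dist (α g (u m)) (α g z) < ε / 4 := by
      intro u z g hu
      have h1 := ((α g).continuous.tendsto z).comp hu
      rw [tendsto_iff_dist_tendsto_zero] at h1
      exact h1.eventually_lt_const (by positivity)
    have hc' : ∀ (u : ℕ → X) (z : X), Tendsto u atTop (𝓝 z) →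
        ∀ᶠ m in atTop, dist (u m) z < ε / 4 := by
      intro u z hu
      rw [tendsto_iff_dist_tendsto_zero] at hu
      exact hu.eventually_lt_const (by positivity)
    refine Eventually.and ?_ ((hc' _ _ hl1).and (hc' _ _ hl4))
    rw [Filter.eventually_all_finset]
    intro i _
    exact (hc _ _ (g i) hl1).and ((hc _ _ (g i) hl4).and (hc _ _ (g i) hl2))
  obtain ⟨m, hm1, hm2, hm3⟩ := ev.exists
  -- abbreviations
  set a := y₁ (φ m)
  set b := y₂ (φ m)
  set c := y₃ (φ m)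
  set d := y₄ (φ m)
  set K := k (φ m)
  have hab : ε ≤ dist a b := h12 _
  have hbc : ε ≤ dist b c := h23 _
  have hac : ε ≤ dist a c := h13 _
  -- the chain
  set p : ℕ → X := fun i => Nat.casesOn i c w with hp
  have hp0 : p 0 = c := rfl
  have hpS : ∀ i, p (i + 1) = w i := fun i => rfl
  -- the basic estimate
  have hmove : ∀ (g : G) (a' b' c' d' : X), ε / 2 ≤ dist (α g a') (α g c') →
      ε / 2 ≤ dist (α g a') (α g d') → ε / 2 ≤ dist (α g b') (α g c') →
      ε / 2 ≤ dist (α g b') (α g d') →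
      dist (f (α K a')) (f (α K c')) * dist (f (α K b')) (f (α K d')) ≤
        N * (dist (f (α K a')) (f (α K d')) * dist (f (α K b')) (f (α K c'))) := by
    intro g a' b' c' d' h1 h2 h3 h4
    have h := hPN (K * g⁻¹) (α g a') (α g b') (α g c') (α g d') h1 h2 h3 h4
    have hx : ∀ x, α (K * g⁻¹) (α g x) = α K x := by
      intro x
      have : α (K * g⁻¹) (α g x) = (α (K * g⁻¹) * α g) x := rfl
      rw [this, ← map_mul, inv_mul_cancel_right]
    rwa [hx, hx, hx, hx] at h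
  -- near points: for the stage `j` all of `a`, `d`, `p i` (`i > j`) are close to `z₁`
  have near0 : ∀ i, 0 < i → dist (p i) z₁ < ε / 4 := by
    intro i hi
    obtain ⟨i, rfl⟩ : ∃ l, i = l + 1 := ⟨i - 1, by omega⟩
    rw [hpS]; exact hw1 i
  have nearS : ∀ l i, l + 1 < i → dist (α (g l) (p i)) (α (g l) z₁) < ε / 4 := by
    intro l i hi
    obtain ⟨i, rfl⟩ : ∃ l, i = l + 1 := ⟨i - 1, by omega⟩
    rw [hpS]; exact hgw l i (by omega)
  have far0 : ∀ x, dist x z₁ < ε / 4 → ε / 2 ≤ dist c x ∧ ε / 2 ≤ dist b x := by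
    intro x hx
    have h1 := dist_triangle4_left a c z₁ x
    have h2 := dist_triangle4_left a b z₁ x
    have h3 := dist_triangle a z₁ c
    have h4 := dist_triangle a z₁ b
    have h5 := dist_triangle z₁ x c
    have h6 := dist_triangle z₁ x b
    rw [dist_comm x z₁] at hx
    rw [dist_comm c x, dist_comm b x]
    constructor <;> linarith
  have farS : ∀ l ≤ M, ∀ x, dist (α (g l) x) (α (g l) z₁) < ε / 4 →
      ε / 2 ≤ dist (α (g l) (w l)) (α (g l) x) ∧ ε / 2 ≤ dist (α (g l) b) (α (g l) x) := by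
    intro l hl x hx
    obtain ⟨-, -, h0⟩ := hm1 l (Finset.mem_range.2 (by omega))
    have h1 := hg1w l
    have h2 := hg12 l
    have h3 := dist_triangle (α (g l) z₁) (α (g l) x) (α (g l) (w l))
    have h4 := dist_triangle4 (α (g l) z₁) (α (g l) x) (α (g l) b) (α (g l) z₂)
    rw [dist_comm (α (g l) z₁) (α (g l) x)] at h3 h4
    rw [dist_comm (α (g l) (w l)) (α (g l) x), dist_comm (α (g l) b) (α (g l) x)]
    constructor <;> linarith
  -- general estimate for the stage `j`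
  have stage : ∀ j ≤ M, ∀ x y : X, (x = a ∨ x = d ∨ ∃ i, j < i ∧ x = p i) →
      (y = a ∨ y = d ∨ ∃ i, j < i ∧ y = p i) →
      dist (f (α K (p j))) (f (α K x)) * dist (f (α K b)) (f (α K y)) ≤
        N * (dist (f (α K (p j))) (f (α K y)) * dist (f (α K b)) (f (α K x))) := by
    intro j hj x y hx hy
    rcases Nat.eq_zero_or_pos j with rfl | hj0
    · have hn : ∀ x, (x = a ∨ x = d ∨ ∃ i, 0 < i ∧ x = p i) → dist x z₁ < ε / 4 := by
        rintro x (rfl | rfl | ⟨i, hi, rfl⟩)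
        · exact hm2
        · exact hm3
        · exact near0 i hi
      have h1 := far0 x (hn x hx)
      have h2 := far0 y (hn y hy)
      have h3 : ∀ x, α 1 x = x := fun x => by rw [map_one]; rfl
      refine hmove 1 (p 0) b x y ?_ ?_ ?_ ?_
      · rw [h3, h3, hp0]; exact h1.1
      · rw [h3, h3, hp0]; exact h2.1
      · rw [h3, h3]; exact h1.2
      · rw [h3, h3]; exact h2.2
    · obtain ⟨l, rfl⟩ : ∃ l, j = l + 1 := ⟨j - 1, by omega⟩
      have hlM : l ≤ M := by omega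
      obtain ⟨ha, hd, -⟩ := hm1 l (Finset.mem_range.2 (by omega))
      have hn : ∀ x, (x = a ∨ x = d ∨ ∃ i, l + 1 < i ∧ x = p i) →
          dist (α (g l) x) (α (g l) z₁) < ε / 4 := by
        rintro x (rfl | rfl | ⟨i, hi, rfl⟩)
        · exact ha
        · exact hd
        · exact nearS l i hi
      have h1 := farS l hlM x (hn x hx)
      have h2 := farS l hlM y (hn y hy)
      rw [hpS]
      exact hmove (g l) (w l) b x y h1.1 h2.1 h1.2 h2.2
  -- distinctness
  have hdb : d ≠ b := by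
    intro h
    have := (far0 d hm3).2
    rw [h, dist_self] at this
    linarith
  have hab' : a ≠ b := fun h => by rw [h, dist_self] at hab; linarith
  have hpb : ∀ i, p i ≠ b := by
    intro i h
    rcases Nat.eq_zero_or_pos i with rfl | hi
    · rw [hp0] at h
      rw [h, dist_self] at hbc
      linarith
    · have := (far0 _ (near0 i hi)).2
      rw [h, dist_self] at this
      linarith
  have hca : p 0 ≠ a := by
    rw [hp0]
    intro h
    rw [h, dist_self] at hac
    linarith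
  have hne : ∀ {x y : X}, x ≠ y → f (α K x) ≠ f (α K y) := fun h => hf.ne ((α K).injective.ne h)
  have hfin := hM (f (α K a)) (f (α K b)) (f (α K d)) (fun i => f (α K (p i))) (hne hab') (hne hdb)
    (fun i => hne (hpb i)) (hne hca)
    (fun i hi => stage i hi a d (Or.inl rfl) (Or.inr (Or.inl rfl)))
    (fun i hi => stage i hi d a (Or.inr (Or.inl rfl)) (Or.inl rfl))
    (fun i j hij hj => stage i (by omega) a (p j) (Or.inl rfl) (Or.inr (Or.inr ⟨j, hij, rfl⟩)))
    (fun j hj0 _ => stage 0 (Nat.zero_le _) (p j) a (Or.inr (Or.inr ⟨j, hj0, rfl⟩)) (Or.inl rfl))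
  exact absurd (hbad (φ m)) (not_lt.2 hfin)

end Equi

end Pool.Agent.TH162.FC
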