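import Pool.Agent.TH162.FC.Local

/-!
# Definitions for the statement: uniformly quasi-Moebius embeddings and finite configurations
-/

set_option autoImplicit false

open Filter Topology Set Pool.Agent.TH289.C

namespace Pool.Agent.TH162.FC

variable {G : Type} [Group G] {X : Type} [MetricSpace X]

/-- There is an injective continuous map `f` from `X` to the sphere `S^n` such that the maps
`f g f⁻¹ : f(X) → f(X)`, `g` in the group, are uniformly quasi-Moebius: 4-tuples in `f(X)` with
cross ratio at most `t` are mapped to 4-tuples with cross ratio at most `T = T(t)`, and `T(t)` can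
be chosen so that it tends to `0` with `t`. -/
def UniformlyQuasiMoebiusEmbeds (α : Action G X) (n : ℕ) : Prop :=
  ∃ f : X → Sn n, Continuous f ∧ Function.Injective f ∧
    (∀ t : ℝ, ∃ T : ℝ, ∀ (g : G) (a b c d : X), Distinct4 a b c d →
      cr (f a) (f b) (f c) (f d) ≤ t →
        cr (f (α.map g a)) (f (α.map g b)) (f (α.map g c)) (f (α.map g d)) ≤ T) ∧
    ∀ T : ℝ, 0 < T → ∃ t : ℝ, 0 < t ∧ ∀ (g : G) (a b c d : X), Distinct4 a b c d →
      cr (f a) (f b) (f c) (f d) ≤ t →
        cr (f (α.map g a)) (f (α.map g b)) (f (α.map g c)) (f (α.map g d)) ≤ T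

/-- There is a function `N` such that for every finite set `P` of points of `U`, every finite set
`H` of group elements and every `δ > 0` there is a map `φ` of the points to `S^n`, injective on `P`,
with the following property: whenever `a, b, c, d` in `P`, `h` in `H`, `ε ≥ δ` and `h a, h b, h c,
h d` have pairwise distances at least `ε`, the cross ratio of `φ a, φ b, φ c, φ d` is at most
`N ε`. -/
def FinitelyBounded (α : Action G X) (U : Set X) (n : ℕ) : Prop :=
  ∃ N : ℝ → ℝ, ∀ P : Finset X, (P : Set X) ⊆ U → ∀ (H : Finset G) (δ : ℝ), 0 < δ →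
    ∃ φ : X → Sn n, InjOn φ P ∧ ∀ h ∈ H, ∀ ε, δ ≤ ε →
      ∀ a ∈ P, ∀ b ∈ P, ∀ c ∈ P, ∀ d ∈ P,
        Sep4 ε (α.map h a) (α.map h b) (α.map h c) (α.map h d) →
          cr (φ a) (φ b) (φ c) (φ d) ≤ N ε

end Pool.Agent.TH162.FC
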