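import Mathlib

/-!
# Moebius normalisation of three points of a sphere
-/

set_option autoImplicit false

open Filter Topology Set EuclideanGeometry

namespace Pool.Agent.TH162.FC

variable {E : Type} [NormedAddCommGroup E] [InnerProductSpace ℝ E]

omit [InnerProductSpace ℝ E] in
theorem fac_mul {x c : E} (h : x ≠ c) : (√2 / dist x c) ^ 2 * ‖x - c‖ ^ 2 = 2 := by
  have h1 : 0 < ‖x - c‖ := norm_pos_iff.2 (sub_ne_zero.2 h)
  rw [dist_eq_norm, div_pow, Real.sq_sqrt (by norm_num)]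
  field_simp

theorem norm_J {c w : E} (hc : ‖c‖ = 1) (hw : inner ℝ w c = 0) :
    ‖inversion c (√2) w‖ = 1 := by
  have hne : w ≠ c := by
    rintro rfl
    rw [real_inner_self_eq_norm_sq, hc] at hw
    norm_num at hw
  have h1 := fac_mul hne
  set t := (√2 / dist w c) ^ 2 with ht
  have h2 : inversion c (√2) w = t • (w - c) + c := by
    simp [inversion, ht]
  have h3 : ‖inversion c (√2) w‖ ^ 2 = 1 := by
    rw [h2, norm_add_sq_real, norm_smul, mul_pow, inner_smul_left, inner_sub_left, hw,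
      real_inner_self_eq_norm_sq, hc]
    have h4 : ‖t‖ ^ 2 = t ^ 2 := by rw [Real.norm_eq_abs, sq_abs]
    rw [h4]
    simp only [conj_trivial]
    have : t ^ 2 * ‖w - c‖ ^ 2 = 2 * t := by
      calc t ^ 2 * ‖w - c‖ ^ 2 = t * (t * ‖w - c‖ ^ 2) := by ring
        _ = 2 * t := by rw [h1]; ring
    rw [this]
    ring
  have h5 : 0 ≤ ‖inversion c (√2) w‖ := norm_nonneg _
  nlinarith

theorem inner_J {c u : E} (hc : ‖c‖ = 1) (hu : ‖u‖ = 1) (hne : u ≠ c) :
    inner ℝ (inversion c (√2) u) c = 0 := by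
  have h1 := fac_mul hne
  set t := (√2 / dist u c) ^ 2 with ht
  have h2 : inversion c (√2) u = t • (u - c) + c := by
    simp [inversion, ht]
  have h3 : ‖u - c‖ ^ 2 = 2 - 2 * inner ℝ u c := by
    rw [norm_sub_sq_real, hu, hc]; ring
  rw [h2, inner_add_left, inner_smul_left, inner_sub_left, real_inner_self_eq_norm_sq, hc]
  simp only [conj_trivial]
  rw [h3] at h1
  linarith

/-- Three distinct points of the unit sphere can be moved apart by a map which preserves cross
ratios. -/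
theorem normalizer (p₁ p₂ p₃ : Metric.sphere (0 : E) 1) (h12 : p₁ ≠ p₂) (h13 : p₁ ≠ p₃)
    (h23 : p₂ ≠ p₃) : ∃ (M : Metric.sphere (0 : E) 1 → Metric.sphere (0 : E) 1)
      (τ : Metric.sphere (0 : E) 1 → ℝ), (∀ u, 0 < τ u) ∧
      (∀ u v, dist (M u) (M v) = τ u * τ v * dist u v) ∧ 1 ≤ dist (M p₁) (M p₂) ∧
      1 ≤ dist (M p₁) (M p₃) ∧ 1 ≤ dist (M p₂) (M p₃) := by
  classical
  obtain ⟨c, hc⟩ : ∃ c : E, c = (p₃ : E) := ⟨_, rfl⟩
  have hn : ∀ u : Metric.sphere (0 : E) 1, ‖(u : E)‖ = 1 := fun u => by simp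
  have hc1 : ‖c‖ = 1 := by rw [hc]; exact hn p₃
  set J : E → E := inversion c (√2) with hJ
  have h2 : (√2) ^ 2 = 2 := Real.sq_sqrt (by norm_num)
  have hJd : ∀ x y : E, x ≠ c → y ≠ c → dist (J x) (J y) = 2 / (dist x c * dist y c) * dist x y := by
    intro x y hx hy
    rw [hJ, dist_inversion_inversion hx hy, h2]
  have hJc : ∀ x : E, dist (J x) c = 2 / dist x c := by
    intro x
    rw [hJ, dist_inversion_center, h2]
  have hcne : ∀ u : Metric.sphere (0 : E) 1, u ≠ p₃ → (u : E) ≠ c := fun u hu h =>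
    hu (Subtype.ext (h.trans hc))
  -- the similarity
  obtain ⟨x₀, hx0⟩ : ∃ x₀ : E, x₀ = J p₁ := ⟨_, rfl⟩
  have hx0c : inner ℝ x₀ c = 0 := by rw [hx0]; exact inner_J hc1 (hn p₁) (hcne _ h13)
  have hpos : 0 < dist (J p₂) (J p₁) := by
    rw [hJd _ _ (hcne _ h23) (hcne _ h13)]
    have a1 : 0 < dist (p₂ : E) c := dist_pos.2 (hcne _ h23)
    have a2 : 0 < dist (p₁ : E) c := dist_pos.2 (hcne _ h13)
    have a3 : 0 < dist (p₂ : E) p₁ := dist_pos.2 fun h => h12 (Subtype.ext h.symm)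
    positivity
  set l : ℝ := (dist (J p₂) (J p₁))⁻¹ with hl
  have hl0 : 0 < l := inv_pos.2 hpos
  set S : E → E := fun x => l • (x - x₀) with hS
  have hSd : ∀ x y, dist (S x) (S y) = l * dist x y := by
    intro x y
    rw [hS]
    simp only
    rw [dist_smul₀, Real.norm_of_nonneg hl0.le, dist_sub_right]
  have hSc : ∀ x, inner ℝ x c = 0 → inner ℝ (S x) c = 0 := by
    intro x hx
    rw [hS]
    simp only
    rw [inner_smul_left, inner_sub_left, hx, hx0c]
    simp
  have hperp : ∀ x, inner ℝ x c = 0 → x ≠ c := by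
    rintro x hx rfl
    rw [real_inner_self_eq_norm_sq, hc1] at hx
    norm_num at hx
  have hSJ : ∀ u : Metric.sphere (0 : E) 1, u ≠ p₃ → inner ℝ (S (J u)) c = 0 := fun u hu =>
    hSc _ (inner_J hc1 (hn u) (hcne _ hu))
  set M : Metric.sphere (0 : E) 1 → Metric.sphere (0 : E) 1 := fun u =>
    if h : u = p₃ then p₃ else ⟨J (S (J u)), by
      rw [mem_sphere_zero_iff_norm]; exact norm_J hc1 (hSJ u h)⟩ with hM
  have hM3 : M p₃ = p₃ := by rw [hM]; simp
  have hMne : ∀ u, u ≠ p₃ → ((M u : Metric.sphere (0 : E) 1) : E) = J (S (J u)) := by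
    intro u hu
    rw [hM]; simp [hu]
  set τ : Metric.sphere (0 : E) 1 → ℝ := fun u =>
    if u = p₃ then (√l)⁻¹ else 2 * √l / (dist (S (J u)) c * dist (u : E) c) with hτ
  have hl' : 0 < √l := Real.sqrt_pos.2 hl0
  have hll : √l * √l = l := Real.mul_self_sqrt hl0.le
  have hdpos : ∀ u : Metric.sphere (0 : E) 1, u ≠ p₃ → 0 < dist (S (J u)) c ∧
      0 < dist (u : E) c := fun u hu => ⟨dist_pos.2 (hperp _ (hSJ u hu)), dist_pos.2 (hcne _ hu)⟩
  have key3 : ∀ u, u ≠ p₃ → dist (M u) (M p₃) = τ u * τ p₃ * dist u p₃ := by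
    intro u hu
    obtain ⟨q1, q2⟩ := hdpos u hu
    rw [Subtype.dist_eq, Subtype.dist_eq, hM3, hMne u hu, ← hc, hJc, hτ]
    simp only [hu, if_false, if_true]
    field_simp
  refine ⟨M, τ, ?_, ?_, ?_, ?_, ?_⟩
  · intro u
    by_cases hu : u = p₃
    · rw [hτ]; simp only [hu, if_true]; positivity
    · obtain ⟨q1, q2⟩ := hdpos u hu
      rw [hτ]; simp only [hu, if_false]; positivity
  · intro u v
    by_cases hu : u = p₃
    · by_cases hv : v = p₃
      · rw [hu, hv]; simp
      · rw [hu, dist_comm, key3 v hv, dist_comm v p₃]; ring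
    · by_cases hv : v = p₃
      · rw [hv]; exact key3 u hu
      · obtain ⟨q1, q2⟩ := hdpos u hu
        obtain ⟨q3, q4⟩ := hdpos v hv
        rw [Subtype.dist_eq, Subtype.dist_eq, hMne u hu, hMne v hv,
          hJd _ _ (hperp _ (hSJ u hu)) (hperp _ (hSJ v hv)), hSd, hJd _ _ (hcne _ hu) (hcne _ hv),
          hτ]
        simp only [hu, hv, if_false]
        have : 2 * √l / (dist (S (J u)) c * dist (u : E) c) *
            (2 * √l / (dist (S (J v)) c * dist (v : E) c)) * dist (u : E) v =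
            4 * (√l * √l) / (dist (S (J u)) c * dist (u : E) c * (dist (S (J v)) c *
              dist (v : E) c)) * dist (u : E) v := by ring
        rw [this, hll]
        field_simp
        ring
  · have e1 : S (J p₁) = 0 := by rw [hS]; simp [hx0]
    have e2 : dist (S (J p₂)) (0 : E) = 1 := by
      have h := hSd (J p₂) (J p₁)
      rw [e1, hl, inv_mul_cancel₀ hpos.ne'] at h
      exact h
    have e3 : dist (0 : E) c = 1 := by rw [dist_zero_left, hc1]
    have e4 : dist (S (J p₂)) c ≤ 2 := by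
      have := dist_triangle (S (J p₂)) 0 c
      linarith
    rw [Subtype.dist_eq, hMne _ h13, hMne _ h23,
      hJd _ _ (hperp _ (hSJ _ h13)) (hperp _ (hSJ _ h23)), e1, e3,
      dist_comm (0 : E) (S (J p₂)), e2]
    have := (hdpos _ h23).1
    rw [one_mul, mul_one, le_div_iff₀ this]
    linarith
  · have e1 : S (J p₁) = 0 := by rw [hS]; simp [hx0]
    rw [Subtype.dist_eq, hMne _ h13, hM3, ← hc, hJc, e1, dist_zero_left, hc1]
    norm_num
  · have e1 : S (J p₁) = 0 := by rw [hS]; simp [hx0]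
    have e2 : dist (S (J p₂)) (0 : E) = 1 := by
      have h := hSd (J p₂) (J p₁)
      rw [e1, hl, inv_mul_cancel₀ hpos.ne'] at h
      exact h
    have e3 : dist (0 : E) c = 1 := by rw [dist_zero_left, hc1]
    have e4 : dist (S (J p₂)) c ≤ 2 := by
      have := dist_triangle (S (J p₂)) 0 c
      linarith
    rw [Subtype.dist_eq, hMne _ h23, hM3, ← hc, hJc]
    have := (hdpos _ h23).1
    rw [le_div_iff₀ this]
    linarith

end Pool.Agent.TH162.FC
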