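import Pool.Agent.TH162.FC.Main
import Pool.Agent.TH162.FC.Normal

/-!
# Limits of maps defined by finite configurations
-/

set_option autoImplicit false

open Filter Topology Set

namespace Pool.Agent.TH162.FC

/-- The four points have pairwise distances at least `ε`. -/
def Sep4 {X : Type} [MetricSpace X] (ε : ℝ) (a b c d : X) : Prop :=
  ε ≤ dist a b ∧ ε ≤ dist a c ∧ ε ≤ dist a d ∧ ε ≤ dist b c ∧ ε ≤ dist b d ∧ ε ≤ dist c d

theorem Sep4.distinct {X : Type} [MetricSpace X] {ε : ℝ} (hε : 0 < ε) {a b c d : X}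
    (h : Sep4 ε a b c d) : Distinct4 a b c d := by
  have key : ∀ x y : X, ε ≤ dist x y → x ≠ y := by
    rintro x y h rfl
    rw [dist_self] at h
    linarith
  exact ⟨key _ _ h.1, key _ _ h.2.1, key _ _ h.2.2.1, key _ _ h.2.2.2.1, key _ _ h.2.2.2.2.1,
    key _ _ h.2.2.2.2.2⟩

section Limit

variable {G : Type} [Group G] {X : Type} [MetricSpace X] {E : Type}
  [NormedAddCommGroup E] [InnerProductSpace ℝ E] [FiniteDimensional ℝ E]

/-- The finitary hypothesis, for all finite sets. -/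
def FinBound (α : G →* (X ≃ₜ X)) (E : Type) [NormedAddCommGroup E] (N : ℝ → ℝ) : Prop :=
  ∀ (P : Finset X) (H : Finset G) (δ : ℝ), 0 < δ →
    ∃ φ : X → Metric.sphere (0 : E) 1, InjOn φ P ∧ ∀ h ∈ H, ∀ ε, δ ≤ ε →
      ∀ a ∈ P, ∀ b ∈ P, ∀ c ∈ P, ∀ d ∈ P, Sep4 ε (α h a) (α h b) (α h c) (α h d) →
        cr (φ a) (φ b) (φ c) (φ d) ≤ N ε

theorem limit {α : G →* (X ≃ₜ X)} {N : ℝ → ℝ} (hN : FinBound α E N) {z₁ z₂ z₃ : X}
    (h12 : z₁ ≠ z₂) (h13 : z₁ ≠ z₃) (h23 : z₂ ≠ z₃) :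
    ∃ f : X → Metric.sphere (0 : E) 1, Function.Injective f ∧ ∀ ε > 0, BBound α f ε (N ε) := by
  classical
  have : ProperSpace E := FiniteDimensional.proper ℝ E
  -- the approximating maps
  have hex : ∀ i : Finset X × Finset G × ℕ, ∃ ψ : X → Metric.sphere (0 : E) 1,
      (∀ h ∈ i.2.1, ∀ ε, 1 / ((i.2.2 : ℝ) + 1) ≤ ε → ∀ a ∈ i.1, ∀ b ∈ i.1, ∀ c ∈ i.1, ∀ d ∈ i.1,
        0 < ε → Sep4 ε (α h a) (α h b) (α h c) (α h d) →
        dist (ψ a) (ψ c) * dist (ψ b) (ψ d) ≤ N ε * (dist (ψ a) (ψ d) * dist (ψ b) (ψ c))) ∧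
      1 ≤ dist (ψ z₁) (ψ z₂) ∧ 1 ≤ dist (ψ z₁) (ψ z₃) ∧ 1 ≤ dist (ψ z₂) (ψ z₃) := by
    rintro ⟨P, H, m⟩
    obtain ⟨φ, hinj, hφ⟩ := hN (P ∪ {z₁, z₂, z₃}) H (1 / ((m : ℝ) + 1)) (by positivity)
    obtain ⟨M, τ, hτ, hM, n12, n13, n23⟩ := normalizer (φ z₁) (φ z₂) (φ z₃)
      (fun h => h12 (hinj (by simp) (by simp) h))
      (fun h => h13 (hinj (by simp) (by simp) h))
      (fun h => h23 (hinj (by simp) (by simp) h))
    refine ⟨fun x => M (φ x), ?_, n12, n13, n23⟩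
    intro h hh ε hε a ha b hb c hc d hd hε0 hsep
    have ha' : a ∈ P ∪ {z₁, z₂, z₃} := Finset.mem_union_left _ ha
    have hb' : b ∈ P ∪ {z₁, z₂, z₃} := Finset.mem_union_left _ hb
    have hc' : c ∈ P ∪ {z₁, z₂, z₃} := Finset.mem_union_left _ hc
    have hd' : d ∈ P ∪ {z₁, z₂, z₃} := Finset.mem_union_left _ hd
    have hcr := hφ h hh ε hε a ha' b hb' c hc' d hd' hsep
    have hdis := hsep.distinct hε0
    have hne : ∀ {x y : X}, x ∈ P ∪ {z₁, z₂, z₃} → y ∈ P ∪ {z₁, z₂, z₃} → α h x ≠ α h y →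
        φ x ≠ φ y := fun {x y} hx hy hxy he => hxy (congrArg (α h) (hinj (by simpa using hx)
          (by simpa using hy) he))
    have hdis' : Distinct4 (φ a) (φ b) (φ c) (φ d) :=
      ⟨hne ha' hb' hdis.1, hne ha' hc' hdis.2.1, hne ha' hd' hdis.2.2.1, hne hb' hc' hdis.2.2.2.1,
        hne hb' hd' hdis.2.2.2.2.1, hne hc' hd' hdis.2.2.2.2.2⟩
    rw [cr_le_iff hdis'] at hcr
    simp only
    rw [hM, hM, hM, hM]
    have hp : 0 < τ (φ a) * τ (φ b) * τ (φ c) * τ (φ d) :=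
      mul_pos (mul_pos (mul_pos (hτ _) (hτ _)) (hτ _)) (hτ _)
    calc _ = τ (φ a) * τ (φ b) * τ (φ c) * τ (φ d) *
          (dist (φ a) (φ c) * dist (φ b) (φ d)) := by ring
      _ ≤ τ (φ a) * τ (φ b) * τ (φ c) * τ (φ d) *
          (N ε * (dist (φ a) (φ d) * dist (φ b) (φ c))) := mul_le_mul_of_nonneg_left hcr hp.le
      _ = _ := by ring
  choose ψ hψ n12 n13 n23 using hex
  set 𝒰 : Ultrafilter (Finset X × Finset G × ℕ) := Ultrafilter.of atTop with h𝒰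
  have h𝒰le : (𝒰 : Filter (Finset X × Finset G × ℕ)) ≤ atTop := Ultrafilter.of_le atTop
  have hlim : ∀ u : X, ∃ y : Metric.sphere (0 : E) 1, Tendsto (fun i => ψ i u) 𝒰 (𝓝 y) := by
    intro u
    obtain ⟨y, -, hy⟩ := isCompact_univ.ultrafilter_le_nhds (𝒰.map fun i => ψ i u) (by simp)
    exact ⟨y, hy⟩
  choose f hf using hlim
  have hsep : ∀ x y : X, (∀ i, 1 ≤ dist (ψ i x) (ψ i y)) → f x ≠ f y := by
    intro x y h he
    have h1 : (1 : ℝ) ≤ dist (f x) (f y) := ge_of_tendsto' ((hf x).dist (hf y)) h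
    rw [he, dist_self] at h1
    linarith
  have hB : ∀ ε > 0, BBound α f ε (N ε) := by
    intro ε hε k a b c d s1 s2 s3 s4 s5 s6
    obtain ⟨m, hm⟩ := exists_nat_one_div_lt hε
    have hev : ∀ᶠ i : Finset X × Finset G × ℕ in 𝒰, ({α k a, α k b, α k c, α k d}, {k⁻¹}, m) ≤ i :=
      h𝒰le (eventually_ge_atTop _)
    refine le_of_tendsto_of_tendsto (((hf _).dist (hf _)).mul ((hf _).dist (hf _)))
      ((((hf _).dist (hf _)).mul ((hf _).dist (hf _))).const_mul _) ?_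
    filter_upwards [hev] with i hi
    obtain ⟨hi1, hi2, hi3⟩ := hi
    simp only at hi1 hi2 hi3
    have hx : ∀ x, α k⁻¹ (α k x) = x := by
      intro x
      have : α k⁻¹ (α k x) = (α k⁻¹ * α k) x := rfl
      rw [this, ← map_mul, inv_mul_cancel, map_one]
      rfl
    refine hψ i k⁻¹ (hi2 (by simp)) ε ?_ _ (hi1 (by simp)) _ (hi1 (by simp)) _ (hi1 (by simp)) _
      (hi1 (by simp)) hε ?_
    · refine le_trans ?_ hm.le
      have : (m : ℝ) ≤ (i.2.2 : ℝ) := by exact_mod_cast hi3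
      gcongr
    · rw [hx, hx, hx, hx]
      exact ⟨s1, s2, s3, s4, s5, s6⟩
  refine ⟨f, ?_, hB⟩
  have f12 := hsep _ _ n12
  have f13 := hsep _ _ n13
  have f23 := hsep _ _ n23
  -- injectivity from two points with other images
  have key : ∀ u u' p q : X, u ≠ u' → f u = f u' → p ≠ q → f p ≠ f u → f q ≠ f u → False := by
    intro u u' p q huu hfu hpq hp hq
    have e1 : u ≠ p := fun h => hp (by rw [h])
    have e2 : u ≠ q := fun h => hq (by rw [h])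
    have e3 : p ≠ u' := fun h => hp (by rw [h, hfu])
    have e4 : q ≠ u' := fun h => hq (by rw [h, hfu])
    have hsix : ∃ ε : ℝ, 0 < ε ∧ Sep4 ε u p q u' := by
      refine ⟨min (dist u p) (min (dist u q) (min (dist u u') (min (dist p q)
        (min (dist p u') (dist q u'))))), ?_, ?_⟩
      · simp only [lt_min_iff, dist_pos]
        exact ⟨e1, e2, huu, hpq, e3, e4⟩
      · refine ⟨?_, ?_, ?_, ?_, ?_, ?_⟩ <;> simp
    obtain ⟨ε, hε, s1, s2, s3, s4, s5, s6⟩ := hsix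
    have h1 := hB ε hε 1 u p q u' s1 s2 s3 s4 s5 s6
    have h3 : ∀ x, α 1 x = x := fun x => by rw [map_one]; rfl
    rw [h3, h3, h3, h3, hfu, dist_self, zero_mul, mul_zero] at h1
    have h4 : 0 < dist (f u') (f q) := dist_pos.2 (by rw [← hfu]; exact hq.symm)
    have h5 : 0 < dist (f p) (f u') := dist_pos.2 (by rw [← hfu]; exact hp)
    have : 0 < dist (f u') (f q) * dist (f p) (f u') := mul_pos h4 h5
    linarith
  intro u u' hfu
  by_contra huu
  by_cases c1 : f z₁ = f u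
  · exact key u u' z₂ z₃ huu hfu h23 (fun h => f12 (c1.trans h.symm)) fun h =>
      f13 (c1.trans h.symm)
  · by_cases c2 : f z₂ = f u
    · exact key u u' z₁ z₃ huu hfu h13 c1 fun h => f23 (c2.trans h.symm)
    · exact key u u' z₁ z₂ huu hfu h12 c1 c2

end Limit

end Pool.Agent.TH162.FC
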