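import Pool.Agent.TH162.FC.Limit
import Pool.Agent.TH289.C.C7

/-!
# Finite configurations in one open set
-/

set_option autoImplicit false

open Filter Topology Set Pool.Agent.TH289.C

namespace Pool.Agent.TH162.FC

section Local

variable {G : Type} [Group G] {X : Type} [MetricSpace X]

/-- All finite sets which miss one point `b` can be moved into the open set `U`. -/
theorem absorb [CompactSpace X] (hperf : ∀ x : X, (𝓝[≠] x).NeBot) {α : G →* (X ≃ₜ X)}
    (hα : IsConvergenceAction α) (hco : CocompactOnTriples α) {U : Set X} (hU : IsOpen U)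
    (hne : U.Nonempty) : ∃ b : X, ∀ P : Finset X, b ∉ P → ∃ k : G, ∀ x ∈ P, α k x ∈ U := by
  obtain ⟨ξ, hξ⟩ := hne
  obtain ⟨ε, hε, hco⟩ := hco
  have hstep : ∀ n : ℕ, ∃ (t : Fin 3 → X) (g : G), Near ξ (1 / ((n : ℝ) + 1)) t ∧
      ε ≤ sep (act α g⁻¹ t) := by
    intro n
    have hpos : (0 : ℝ) < 1 / ((n : ℝ) + 1) := by positivity
    have := hperf ξ
    have h1 : ∀ᶠ x in 𝓝[≠] ξ, dist x ξ < 1 / ((n : ℝ) + 1) :=
      nhdsWithin_le_nhds (Metric.ball_mem_nhds ξ hpos)
    have h2 : ∀ᶠ x in 𝓝[≠] ξ, x ≠ ξ := eventually_mem_nhdsWithin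
    obtain ⟨x, hx1, hx2⟩ := (h1.and h2).exists
    have h3 : ∀ᶠ y in 𝓝[≠] ξ, y ≠ x :=
      nhdsWithin_le_nhds (isOpen_compl_singleton.mem_nhds (Ne.symm hx2))
    obtain ⟨y, hy1, hy2⟩ := (h2.and h3).exists
    obtain ⟨g, g1, g2, g3⟩ := hco ξ x y (Ne.symm hx2) (Ne.symm hy2) (Ne.symm hy1)
    refine ⟨![ξ, x, y], g⁻¹, ⟨0, 1, by decide, by simpa using hpos, by simpa using hx1⟩, ?_⟩
    rw [inv_inv]
    exact le_min g1 (le_min g2 g3)
  choose t g hnear hsep using hstep
  obtain ⟨φ, -, b, hab⟩ := attract_of_near hα hε g t hnear hsep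
  refine ⟨b, fun P hP => ?_⟩
  have hW : ((P : Set X)ᶜ) ∈ 𝓝 b := P.finite_toSet.isClosed.isOpen_compl.mem_nhds (by simpa using hP)
  obtain ⟨n, hn⟩ := (hab U (hU.mem_nhds hξ) _ hW).exists
  exact ⟨g (φ n), fun x hx => hn x (by simpa using hx)⟩

/-- The finitary hypothesis for the finite subsets of `U`. -/
def FinBoundOn (α : G →* (X ≃ₜ X)) (E : Type) [NormedAddCommGroup E] (U : Set X) (N : ℝ → ℝ) :
    Prop :=
  ∀ (P : Finset X), (P : Set X) ⊆ U → ∀ (H : Finset G) (δ : ℝ), 0 < δ →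
    ∃ φ : X → Metric.sphere (0 : E) 1, InjOn φ P ∧ ∀ h ∈ H, ∀ ε, δ ≤ ε →
      ∀ a ∈ P, ∀ b ∈ P, ∀ c ∈ P, ∀ d ∈ P, Sep4 ε (α h a) (α h b) (α h c) (α h d) →
        cr (φ a) (φ b) (φ c) (φ d) ≤ N ε

theorem global_of_local [CompactSpace X] (hperf : ∀ x : X, (𝓝[≠] x).NeBot) {α : G →* (X ≃ₜ X)}
    (hα : IsConvergenceAction α) (hco : CocompactOnTriples α) {E : Type} [NormedAddCommGroup E]
    {U : Set X} (hU : IsOpen U) (hne : U.Nonempty) {N : ℝ → ℝ} (hN : FinBoundOn α E U N) :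
    FinBound α E (fun ε => N (ε / 2)) := by
  classical
  obtain ⟨b, hb⟩ := absorb hperf hα hco hU hne
  intro P H δ hδ
  -- a substitute for `b`
  have h1 : ∀ᶠ x in 𝓝[≠] b, ∀ h ∈ H, dist (α h x) (α h b) < δ / 4 := by
    rw [Filter.eventually_all_finset]
    intro h _
    have hc : Continuous fun x => dist (α h x) (α h b) := (α h).continuous.dist continuous_const
    have := hc.tendsto b
    rw [dist_self] at this
    exact (this.mono_left nhdsWithin_le_nhds).eventually_lt_const (by positivity)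
  have h2 : ∀ᶠ x in 𝓝[≠] b, x ≠ b := eventually_mem_nhdsWithin
  have h3 : ∀ᶠ x in 𝓝[≠] b, x ∉ P := by
    have hcl : ((((P.erase b : Finset X)) : Set X)ᶜ) ∈ 𝓝 b :=
      (P.erase b).finite_toSet.isClosed.isOpen_compl.mem_nhds (by simp)
    have := nhdsWithin_le_nhds (s := {b}ᶜ) hcl
    filter_upwards [this, h2] with x hx hxb hxP
    exact hx (by simpa using ⟨hxP, hxb⟩)
  have := hperf b
  obtain ⟨b', hb1, hb2, hb3⟩ := (h1.and (h2.and h3)).exists
  set π : X → X := fun x => if x = b then b' else x with hπ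
  have hπb : ∀ x, π x ≠ b := by
    intro x
    by_cases hx : x = b
    · simp [hπ, hx, hb2]
    · simp [hπ, hx]
  have hπinj : ∀ x ∈ P, ∀ y ∈ P, π x = π y → x = y := by
    intro x hx y hy hxy
    by_cases h1 : x = b
    · by_cases h2 : y = b
      · rw [h1, h2]
      · simp only [hπ, h1, h2, if_true, if_false] at hxy
        exact absurd (hxy ▸ hy) hb3
    · by_cases h2 : y = b
      · simp only [hπ, h1, h2, if_true, if_false] at hxy
        exact absurd (hxy ▸ hx) hb3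
      · simpa only [hπ, h1, h2, if_false] using hxy
  have hπd : ∀ h ∈ H, ∀ x, dist (α h (π x)) (α h x) ≤ δ / 4 := by
    intro h hh x
    by_cases hx : x = b
    · simp only [hπ, hx, if_true]
      exact (hb1 h hh).le
    · simp only [hπ, hx, if_false, dist_self]
      positivity
  obtain ⟨k, hk⟩ := hb (P.image π) (by
    simp only [Finset.mem_image, not_exists, not_and]
    exact fun x _ => hπb x)
  obtain ⟨φ, hinj, hφ⟩ := hN ((P.image π).image (α k)) (by
    intro y hy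
    simp only [Finset.coe_image, Set.mem_image] at hy
    obtain ⟨x, ⟨w, hw, rfl⟩, rfl⟩ := hy
    exact hk _ (Finset.mem_image_of_mem π hw)) (H.image fun h => h * k⁻¹) (δ / 2) (by positivity)
  have hmem : ∀ x ∈ P, α k (π x) ∈ (P.image π).image (α k) := fun x hx =>
    Finset.mem_image_of_mem _ (Finset.mem_image_of_mem _ hx)
  refine ⟨fun x => φ (α k (π x)), ?_, ?_⟩
  · intro x hx y hy hxy
    have h := hinj (by simpa only [Finset.mem_coe] using hmem x hx)
      (by simpa only [Finset.mem_coe] using hmem y hy) hxy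
    exact hπinj x hx y hy ((α k).injective h)
  · intro h hh ε hε p hp q hq r hr s hs hsep
    have hmove : ∀ x, α (h * k⁻¹) (α k x) = α h x := by
      intro x
      have : α (h * k⁻¹) (α k x) = (α (h * k⁻¹) * α k) x := rfl
      rw [this, ← map_mul, inv_mul_cancel_right]
    have hd : ∀ x y, ε ≤ dist (α h x) (α h y) →
        ε / 2 ≤ dist (α (h * k⁻¹) (α k (π x))) (α (h * k⁻¹) (α k (π y))) := by
      intro x y hxy
      rw [hmove, hmove]
      have t1 := dist_triangle4 (α h x) (α h (π x)) (α h (π y)) (α h y)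
      have t2 := hπd h hh x
      rw [dist_comm] at t2
      have t3 := hπd h hh y
      linarith
    exact hφ (h * k⁻¹) (Finset.mem_image_of_mem _ hh) (ε / 2) (by linarith) _ (hmem p hp) _
      (hmem q hq) _ (hmem r hr) _ (hmem s hs) ⟨hd _ _ hsep.1, hd _ _ hsep.2.1, hd _ _ hsep.2.2.1,
        hd _ _ hsep.2.2.2.1, hd _ _ hsep.2.2.2.2.1, hd _ _ hsep.2.2.2.2.2⟩

/-- Uniformly quasi-Moebius embedding of the action in a sphere. -/
def EmbedsIn (α : G →* (X ≃ₜ X)) (Y : Type) [MetricSpace Y] : Prop :=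
  ∃ f : X → Y, Continuous f ∧ Function.Injective f ∧
    (∀ t : ℝ, ∃ T : ℝ, ∀ (h : G) (a b c d : X), Distinct4 a b c d →
      cr (f a) (f b) (f c) (f d) ≤ t →
        cr (f (α h a)) (f (α h b)) (f (α h c)) (f (α h d)) ≤ T) ∧
    ∀ s : ℝ, 0 < s → ∃ r : ℝ, 0 < r ∧ ∀ (h : G) (a b c d : X), Distinct4 a b c d →
      cr (f a) (f b) (f c) (f d) ≤ r →
        cr (f (α h a)) (f (α h b)) (f (α h c)) (f (α h d)) ≤ s

theorem embeds_of_local [CompactSpace X] (hperf : ∀ x : X, (𝓝[≠] x).NeBot) {α : G →* (X ≃ₜ X)}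
    (hα : IsConvergenceAction α) (hco : CocompactOnTriples α) {E : Type} [NormedAddCommGroup E]
    [InnerProductSpace ℝ E] [FiniteDimensional ℝ E]
    {U : Set X} (hU : IsOpen U) (hne : U.Nonempty) {N : ℝ → ℝ} (hN : FinBoundOn α E U N) :
    EmbedsIn α (Metric.sphere (0 : E) 1) := by
  have hF := global_of_local hperf hα hco hU hne hN
  -- three distinct points
  obtain ⟨z₁, -⟩ := hne
  have hnb := hperf z₁
  have h2 : ∀ᶠ x in 𝓝[≠] z₁, x ≠ z₁ := eventually_mem_nhdsWithin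
  obtain ⟨z₂, hz2⟩ := h2.exists
  have h3 : ∀ᶠ y in 𝓝[≠] z₁, y ≠ z₂ :=
    nhdsWithin_le_nhds (isOpen_compl_singleton.mem_nhds (Ne.symm hz2))
  obtain ⟨z₃, hz3, hz3'⟩ := (h2.and h3).exists
  obtain ⟨f, hf, hB⟩ := limit hF (Ne.symm hz2) (Ne.symm hz3) (Ne.symm hz3')
  have hinf : Infinite X := Set.infinite_univ_iff.1 (infinite_of_mem_nhds z₁ univ_mem)
  obtain ⟨ε, hε, hco⟩ := hco
  have hP := p_of_b hf fun ε hε => ⟨_, hB ε hε⟩
  have hD : ∀ x y : Metric.sphere (0 : E) 1, dist x y ≤ 2 := by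
    intro x y
    have h := dist_triangle_right (x : E) y 0
    have hx : dist (x : E) 0 = 1 := x.2
    have hy : dist (y : E) 0 = 1 := y.2
    rw [Subtype.dist_eq]
    linarith
  obtain ⟨b1, b2⟩ := both hperf (fun x : Metric.sphere (0 : E) 1 => (x : E)) isometry_subtype_coe hf
    hε hco hP
  exact ⟨f, cont_of_pbound hperf (fun x : Metric.sphere (0 : E) 1 => (x : E)) isometry_subtype_coe
    hf hε hco hP hD, hf, b1, b2⟩

/-- The converse. -/
theorem local_of_embeds [CompactSpace X] {α : G →* (X ≃ₜ X)} {E : Type} [NormedAddCommGroup E]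
    (U : Set X) (h : EmbedsIn α (Metric.sphere (0 : E) 1)) : ∃ N : ℝ → ℝ, FinBoundOn α E U N := by
  obtain ⟨f, hf, hinj, hT, -⟩ := h
  have hD : ∀ x y : Metric.sphere (0 : E) 1, dist x y ≤ 2 := by
    intro x y
    have h := dist_triangle_right (x : E) y 0
    have hx : dist (x : E) 0 = 1 := x.2
    have hy : dist (y : E) 0 = 1 := y.2
    rw [Subtype.dist_eq]
    linarith
  have hex : ∀ ε : ℝ, ∃ T : ℝ, 0 < ε → ∀ (h : G) (a b c d : X),
      Sep4 ε (α h a) (α h b) (α h c) (α h d) → cr (f a) (f b) (f c) (f d) ≤ T := by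
    intro ε
    by_cases hε : 0 < ε
    · have hK : IsCompact {p : X × X | ε ≤ dist p.1 p.2} :=
        (isClosed_le continuous_const continuous_dist).isCompact
      obtain ⟨δ, hδ, hδ'⟩ := hK.exists_forall_le' (f := fun p : X × X => dist (f p.1) (f p.2))
        (a := 0) (by fun_prop) (fun p hp => by
          refine dist_pos.2 (hinj.ne ?_)
          intro h
          simp only [Set.mem_ofPred_eq, h, dist_self] at hp
          linarith)
      obtain ⟨T, hT⟩ := hT (2 * 2 / (δ * δ))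
      refine ⟨T, fun _ h a b c d hs => ?_⟩
      have hx : ∀ x, α h⁻¹ (α h x) = x := by
        intro x
        have : α h⁻¹ (α h x) = (α h⁻¹ * α h) x := rfl
        rw [this, ← map_mul, inv_mul_cancel, map_one]
        rfl
      have h1 := hT h⁻¹ _ _ _ _ (hs.distinct hε) (by
        unfold cr
        have q1 : δ ≤ dist (f (α h a)) (f (α h d)) := hδ' (α h a, α h d) hs.2.2.1
        have q2 : δ ≤ dist (f (α h b)) (f (α h c)) := hδ' (α h b, α h c) hs.2.2.2.1
        exact div_le_div₀ (by norm_num) (mul_le_mul (hD _ _) (hD _ _) dist_nonneg (by norm_num))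
          (by positivity) (mul_le_mul q1 q2 hδ.le (hδ.le.trans q1)))
      rwa [hx, hx, hx, hx] at h1
    · exact ⟨0, fun h => absurd h hε⟩
  choose N hN using hex
  exact ⟨N, fun P _ H δ hδ => ⟨f, hinj.injOn, fun h _ ε hε a _ b _ c _ d _ hs =>
    hN ε (hδ.trans_le hε) h a b c d hs⟩⟩

end Local

end Pool.Agent.TH162.FC
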