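import Pool.Agent.TH162.FC.Core

/-!
# Uniform quasi-Moebius distortion from bounded cross ratios
-/

set_option autoImplicit false

open Filter Topology Set

namespace Pool.Agent.TH162.FC

/-- The cross ratio `|a - c| |b - d| / (|a - d| |b - c|)`. -/
noncomputable def cr {Y : Type} [MetricSpace Y] (a b c d : Y) : ℝ :=
  dist a c * dist b d / (dist a d * dist b c)

/-- The four points are distinct. -/
def Distinct4 {Y : Type} (a b c d : Y) : Prop :=
  a ≠ b ∧ a ≠ c ∧ a ≠ d ∧ b ≠ c ∧ b ≠ d ∧ c ≠ d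

section Basic

variable {Y : Type} [MetricSpace Y]

theorem cr_le_iff {a b c d : Y} (h : Distinct4 a b c d) (t : ℝ) :
    cr a b c d ≤ t ↔ dist a c * dist b d ≤ t * (dist a d * dist b c) := by
  have h1 : 0 < dist a d := dist_pos.2 h.2.2.1
  have h2 : 0 < dist b c := dist_pos.2 h.2.2.2.1
  rw [cr, div_le_iff₀ (by positivity)]

theorem cr_pos {a b c d : Y} (h : Distinct4 a b c d) : 0 < cr a b c d := by
  have h1 : 0 < dist a d := dist_pos.2 h.2.2.1
  have h2 : 0 < dist b c := dist_pos.2 h.2.2.2.1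
  have h3 : 0 < dist a c := dist_pos.2 h.2.1
  have h4 : 0 < dist b d := dist_pos.2 h.2.2.2.2.1
  unfold cr
  positivity

theorem cr_swap (a b c d : Y) : cr a b d c = (cr a b c d)⁻¹ := by
  unfold cr
  rw [inv_div]

end Basic

theorem Distinct4.swap {Y : Type} {a b c d : Y} (h : Distinct4 a b c d) : Distinct4 a b d c :=
  ⟨h.1, h.2.2.1, h.2.1, h.2.2.2.2.1, h.2.2.2.1, h.2.2.2.2.2.symm⟩

theorem Distinct4.map {X Y : Type} {a b c d : X} (h : Distinct4 a b c d) {f : X → Y}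
    (hf : Function.Injective f) : Distinct4 (f a) (f b) (f c) (f d) :=
  ⟨hf.ne h.1, hf.ne h.2.1, hf.ne h.2.2.1, hf.ne h.2.2.2.1, hf.ne h.2.2.2.2.1, hf.ne h.2.2.2.2.2⟩

section Main

variable {G : Type} [Group G] {X : Type} [MetricSpace X] {Y : Type} [MetricSpace Y] {E : Type}
  [NormedAddCommGroup E] [InnerProductSpace ℝ E] [FiniteDimensional ℝ E]

/-- First half: 4-tuples of cross ratio at most `t` go to 4-tuples of cross ratio at most `T`. -/
theorem large [CompactSpace X] (hperf : ∀ x : X, (𝓝[≠] x).NeBot) (ι : Y → E)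
    (hι : Isometry ι) {α : G →* (X ≃ₜ X)} {f : X → Y} (hf : Function.Injective f) {ε : ℝ}
    (hε : 0 < ε)
    (hco : ∀ x y z : X, x ≠ y → y ≠ z → x ≠ z → ∃ g : G,
      ε ≤ dist (α g x) (α g y) ∧ ε ≤ dist (α g y) (α g z) ∧ ε ≤ dist (α g x) (α g z))
    (hP : ∀ ε > 0, ∃ N, 1 ≤ N ∧ PBound α f ε N) (t : ℝ) (ht : 0 ≤ t) :
    ∃ T, 0 < T ∧ ∀ (h : G) (x₁ x₂ x₃ x₄ : X), x₁ ≠ x₂ → x₁ ≠ x₃ → x₁ ≠ x₄ → x₂ ≠ x₃ → x₂ ≠ x₄ →
      x₃ ≠ x₄ → dist (f x₁) (f x₃) * dist (f x₂) (f x₄) ≤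
        t * (dist (f x₁) (f x₄) * dist (f x₂) (f x₃)) →
      dist (f (α h x₁)) (f (α h x₃)) * dist (f (α h x₂)) (f (α h x₄)) ≤
        T * (dist (f (α h x₁)) (f (α h x₄)) * dist (f (α h x₂)) (f (α h x₃))) := by
  have ptol : ∀ a b c d : Y, dist a c * dist b d ≤ dist a b * dist c d + dist b c * dist a d := by
    intro a b c d
    have := EuclideanGeometry.mul_dist_le_mul_dist_add_mul_dist (ι a) (ι b) (ι c) (ι d)
    simpa only [hι.dist_eq] using this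
  have hθ : 0 < 1 / (2 * (t + 1)) := by positivity
  obtain ⟨δ, hδ, hC⟩ := equi hperf ι hι hf hε hco hP hθ
  set δ' := min δ (ε / 2) with hδ'
  have hδ'0 : 0 < δ' := lt_min hδ (by positivity)
  have hδ1 : δ' ≤ δ := min_le_left _ _
  have hδ2 : δ' ≤ ε / 2 := min_le_right _ _
  obtain ⟨N, hN, hPN⟩ := hP δ' hδ'0
  refine ⟨N + 1, by linarith, fun h x₁ x₂ x₃ x₄ h12 h13 h14 h23 h24 h34 hx => ?_⟩
  obtain ⟨g, g12, g23, g13⟩ := hco x₁ x₂ x₃ h12 h23 h13
  have hmove : ∀ (k : G) (x : X), α (k * g⁻¹) (α g x) = α k x := by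
    intro k x
    have : α (k * g⁻¹) (α g x) = (α (k * g⁻¹) * α g) x := rfl
    rw [this, ← map_mul, inv_mul_cancel_right]
  have h14' : δ' ≤ dist (α g x₁) (α g x₄) := by
    by_contra hlt
    push Not at hlt
    have h1 := hC (1 * g⁻¹) (α g x₁) (α g x₂) (α g x₃) (α g x₄) g12 g23 g13
      (hlt.trans_le hδ1)
    rw [hmove, hmove, hmove, hmove] at h1
    have h3 : ∀ x, α 1 x = x := fun x => by rw [map_one]; rfl
    rw [h3, h3, h3, h3] at h1
    have h2 := ptol (f x₁) (f x₃) (f x₂) (f x₄)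
    rw [dist_comm (f x₃) (f x₂)] at h2
    have p14 : 0 < dist (f x₁) (f x₄) := dist_pos.2 (hf.ne h14)
    have p23 : 0 < dist (f x₂) (f x₃) := dist_pos.2 (hf.ne h23)
    have h4 : dist (f x₁) (f x₄) * dist (f x₂) (f x₃) ≤
        1 / (2 * (t + 1)) * ((t + 1) * (dist (f x₁) (f x₄) * dist (f x₂) (f x₃))) := by
      refine h1.trans (mul_le_mul_of_nonneg_left ?_ hθ.le)
      nlinarith
    have h5 : 1 / (2 * (t + 1)) * ((t + 1) * (dist (f x₁) (f x₄) * dist (f x₂) (f x₃))) =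
        dist (f x₁) (f x₄) * dist (f x₂) (f x₃) / 2 := by
      field_simp
    have h6 : 0 < dist (f x₁) (f x₄) * dist (f x₂) (f x₃) := by positivity
    linarith
  by_cases h24' : δ' ≤ dist (α g x₂) (α g x₄)
  · have h1 := hPN (h * g⁻¹) (α g x₁) (α g x₂) (α g x₃) (α g x₄) (by linarith) h14' (by linarith)
      h24'
    rw [hmove, hmove, hmove, hmove] at h1
    exact h1.trans (mul_le_mul_of_nonneg_right (by linarith) (by positivity))
  · push Not at h24'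
    have h34' : δ' ≤ dist (α g x₃) (α g x₄) := by
      have := dist_triangle_right (α g x₂) (α g x₃) (α g x₄)
      linarith
    have h1 := hPN (h * g⁻¹) (α g x₁) (α g x₃) (α g x₂) (α g x₄) (by linarith) h14'
      (by rw [dist_comm]; linarith) h34'
    rw [hmove, hmove, hmove, hmove] at h1
    have h2 := ptol (f (α h x₁)) (f (α h x₂)) (f (α h x₃)) (f (α h x₄))
    rw [dist_comm (f (α h x₃)) (f (α h x₂))] at h1
    have h3 : (N + 1) * (dist (f (α h x₁)) (f (α h x₄)) * dist (f (α h x₂)) (f (α h x₃))) =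
        N * (dist (f (α h x₁)) (f (α h x₄)) * dist (f (α h x₂)) (f (α h x₃))) +
          dist (f (α h x₂)) (f (α h x₃)) * dist (f (α h x₁)) (f (α h x₄)) := by ring
    rw [h3]
    linarith

/-- Both halves of the quasi-Moebius condition. -/
theorem both [CompactSpace X] (hperf : ∀ x : X, (𝓝[≠] x).NeBot) (ι : Y → E)
    (hι : Isometry ι) {α : G →* (X ≃ₜ X)} {f : X → Y} (hf : Function.Injective f) {ε : ℝ}
    (hε : 0 < ε)
    (hco : ∀ x y z : X, x ≠ y → y ≠ z → x ≠ z → ∃ g : G,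
      ε ≤ dist (α g x) (α g y) ∧ ε ≤ dist (α g y) (α g z) ∧ ε ≤ dist (α g x) (α g z))
    (hP : ∀ ε > 0, ∃ N, 1 ≤ N ∧ PBound α f ε N) :
    (∀ t : ℝ, ∃ T : ℝ, ∀ (h : G) (a b c d : X), Distinct4 a b c d →
      cr (f a) (f b) (f c) (f d) ≤ t →
        cr (f (α h a)) (f (α h b)) (f (α h c)) (f (α h d)) ≤ T) ∧
    ∀ s : ℝ, 0 < s → ∃ r : ℝ, 0 < r ∧ ∀ (h : G) (a b c d : X), Distinct4 a b c d →
      cr (f a) (f b) (f c) (f d) ≤ r →
        cr (f (α h a)) (f (α h b)) (f (α h c)) (f (α h d)) ≤ s := by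
  have L : ∀ t : ℝ, ∃ T : ℝ, 0 < T ∧ ∀ (h : G) (a b c d : X), Distinct4 a b c d →
      cr (f a) (f b) (f c) (f d) ≤ t →
        cr (f (α h a)) (f (α h b)) (f (α h c)) (f (α h d)) ≤ T := by
    intro t
    obtain ⟨T, hT, hT'⟩ := large hperf ι hι hf hε hco hP (max t 0) (le_max_right _ _)
    refine ⟨T, hT, fun h a b c d hd hcr => ?_⟩
    have h1 := (cr_le_iff (hd.map hf) _).1 (hcr.trans (le_max_left t 0))
    obtain ⟨d1, d2, d3, d4, d5, d6⟩ := hd
    exact (cr_le_iff (Distinct4.map ⟨d1, d2, d3, d4, d5, d6⟩ (hf.comp (α h).injective)) _).2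
      (hT' h a b c d d1 d2 d3 d4 d5 d6 h1)
  refine ⟨fun t => ?_, fun s hs => ?_⟩
  · obtain ⟨T, -, hT⟩ := L t
    exact ⟨T, hT⟩
  · obtain ⟨T, hT0, hT⟩ := L s⁻¹
    refine ⟨(2 * T)⁻¹, by positivity, fun h a b c d hd hcr => ?_⟩
    by_contra hlt
    push Not at hlt
    have hd' := hd.map (α h).injective
    have h1 : cr (f (α h a)) (f (α h b)) (f (α h d)) (f (α h c)) ≤ s⁻¹ := by
      rw [cr_swap]
      exact inv_anti₀ hs hlt.le
    have h2 := hT h⁻¹ _ _ _ _ hd'.swap h1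
    have h3 : ∀ x, α h⁻¹ (α h x) = x := by
      intro x
      have : α h⁻¹ (α h x) = (α h⁻¹ * α h) x := rfl
      rw [this, ← map_mul, inv_mul_cancel, map_one]
      rfl
    rw [h3, h3, h3, h3, cr_swap] at h2
    have h4 := cr_pos (hd.map hf)
    have h5 : T⁻¹ ≤ cr (f a) (f b) (f c) (f d) := by
      rw [inv_le_comm₀ hT0 h4]
      exact h2
    have h6 : (2 * T)⁻¹ < T⁻¹ := by
      rw [inv_lt_inv₀ (by positivity) hT0]
      linarith
    linarith

/-- An injective map with bounded cross ratios is continuous. -/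
theorem cont_of_pbound [CompactSpace X] (hperf : ∀ x : X, (𝓝[≠] x).NeBot) (ι : Y → E)
    (hι : Isometry ι) {α : G →* (X ≃ₜ X)} {f : X → Y} (hf : Function.Injective f) {ε : ℝ}
    (hε : 0 < ε)
    (hco : ∀ x y z : X, x ≠ y → y ≠ z → x ≠ z → ∃ g : G,
      ε ≤ dist (α g x) (α g y) ∧ ε ≤ dist (α g y) (α g z) ∧ ε ≤ dist (α g x) (α g z))
    (hP : ∀ ε > 0, ∃ N, 1 ≤ N ∧ PBound α f ε N) {D : ℝ} (hD : ∀ x y : Y, dist x y ≤ D) :
    Continuous f := by
  rw [continuous_iff_continuousAt]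
  intro y₁
  -- two other points
  obtain ⟨y₂, hy2⟩ := (hperf y₁).nonempty_of_mem (self_mem_nhdsWithin) |>.imp fun y hy => hy
  have hy2' : y₂ ≠ y₁ := hy2
  obtain ⟨y₃, hy3, hy3'⟩ : ∃ y₃ : X, y₃ ≠ y₁ ∧ y₃ ≠ y₂ := by
    have h1 : ∀ᶠ y in 𝓝[≠] y₁, y ≠ y₂ :=
      nhdsWithin_le_nhds (isOpen_compl_singleton.mem_nhds hy2'.symm)
    have h2 : ∀ᶠ y in 𝓝[≠] y₁, y ≠ y₁ := eventually_mem_nhdsWithin
    have := hperf y₁
    obtain ⟨y, hy, hy'⟩ := (h1.and h2).exists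
    exact ⟨y, hy', hy⟩
  obtain ⟨g, g12, g23, g13⟩ := hco y₁ y₂ y₃ hy2'.symm hy3'.symm hy3.symm
  have hD0 : 0 ≤ D := dist_nonneg.trans (hD (f y₁) (f y₁))
  have hL : 0 < dist (f y₂) (f y₃) := dist_pos.2 (hf.ne hy3'.symm)
  rw [Metric.continuousAt_iff']
  intro η hη
  obtain ⟨δ, hδ, hC⟩ := equi hperf ι hι hf hε hco hP
    (θ := η * dist (f y₂) (f y₃) / (2 * (D * D + 1))) (by positivity)
  have h1 : ∀ᶠ u in 𝓝 y₁, dist (α g u) (α g y₁) < δ := by
    have hc : Continuous fun u => dist (α g u) (α g y₁) := (α g).continuous.dist continuous_const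
    have := hc.tendsto y₁
    rw [dist_self] at this
    exact this.eventually_lt_const hδ
  filter_upwards [h1] with u hu
  have h2 := hC g⁻¹ (α g y₁) (α g y₂) (α g y₃) (α g u) g12 g23 g13 (by rwa [dist_comm] at hu)
  have hx : ∀ x, α g⁻¹ (α g x) = x := by
    intro x
    have : α g⁻¹ (α g x) = (α g⁻¹ * α g) x := rfl
    rw [this, ← map_mul, inv_mul_cancel, map_one]
    rfl
  rw [hx, hx, hx, hx] at h2
  have h3 : dist (f y₁) (f y₂) * dist (f y₃) (f u) ≤ D * D :=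
    mul_le_mul (hD _ _) (hD _ _) dist_nonneg hD0
  have h4 : dist (f y₁) (f u) * dist (f y₂) (f y₃) ≤
      η * dist (f y₂) (f y₃) / (2 * (D * D + 1)) * (D * D) :=
    h2.trans (mul_le_mul_of_nonneg_left h3 (by positivity))
  have h5 : η * dist (f y₂) (f y₃) / (2 * (D * D + 1)) * (D * D) < η * dist (f y₂) (f y₃) := by
    rw [div_mul_eq_mul_div, div_lt_iff₀ (by positivity)]
    have : 0 < η * dist (f y₂) (f y₃) := by positivity
    nlinarith [mul_nonneg hD0 hD0]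
  rw [dist_comm (f u) (f y₁)]
  exact lt_of_mul_lt_mul_right (h4.trans_lt h5) hL.le

end Main

end Pool.Agent.TH162.FC
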