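import Mathlib

/-!
# Quasi-Moebius distortion: packing argument in the inversion metric
-/

set_option autoImplicit false

open Filter Topology Set

namespace Pool.Agent.TH162.FC

section Pack

variable {E : Type} [NormedAddCommGroup E] [NormedSpace ℝ E] [FiniteDimensional ℝ E]

/-- Packing in a finite-dimensional normed space. -/
theorem packing (ρ : ℝ) (hρ : 0 < ρ) : ∃ M : ℕ, ∀ (c : E) (R : ℝ), 0 < R → ∀ v : ℕ → E,
    (∀ i, dist (v i) c ≤ R) → (∀ i j, i < j → j ≤ M → ρ * R ≤ dist (v i) (v j)) → False := by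
  have : ProperSpace E := FiniteDimensional.proper ℝ E
  obtain ⟨t, -, ht, hcov⟩ := Metric.totallyBounded_iff.1
    (isCompact_closedBall (0 : E) 1).totallyBounded (ρ / 2) (by positivity) |>.imp
      fun t h => (⟨trivial, h.1, h.2⟩ : True ∧ t.Finite ∧ _)
  refine ⟨ht.toFinset.card, fun c R hR v hv hsep => ?_⟩
  have hmem : ∀ i : ℕ, ∃ y ∈ ht.toFinset, dist (R⁻¹ • (v i - c)) y < ρ / 2 := by
    intro i
    have h1 : R⁻¹ • (v i - c) ∈ Metric.closedBall (0 : E) 1 := by
      rw [mem_closedBall_zero_iff, norm_smul, norm_inv, Real.norm_of_nonneg hR.le, ← dist_eq_norm]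
      rw [inv_mul_le_iff₀ hR]
      simpa using hv i
    have := hcov h1
    simp only [mem_iUnion, Metric.mem_ball] at this
    obtain ⟨y, hy, hy'⟩ := this
    exact ⟨y, by simpa using hy, hy'⟩
  choose f hf hf' using hmem
  obtain ⟨i, hi, j, hj, hij, hfij⟩ := Finset.exists_ne_map_eq_of_card_lt_of_maps_to
    (s := Finset.range (ht.toFinset.card + 1)) (t := ht.toFinset) (by simp)
    (f := f) (fun i _ => hf i)
  simp only [Finset.mem_range] at hi hj
  have key : ∀ i j, i < j → j ≤ ht.toFinset.card → f i = f j → False := by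
    intro i j hij hj hfij
    have h1 := hsep i j hij hj
    have h2 := dist_triangle_right (R⁻¹ • (v i - c)) (R⁻¹ • (v j - c)) (f i)
    have h3 := hf' i
    have h4 := hf' j
    rw [← hfij] at h4
    have h5 : dist (R⁻¹ • (v i - c)) (R⁻¹ • (v j - c)) = R⁻¹ * dist (v i) (v j) := by
      rw [dist_smul₀, Real.norm_of_nonneg (inv_nonneg.2 hR.le), dist_sub_right]
    rw [h5] at h2
    have h6 : R⁻¹ * dist (v i) (v j) < ρ := by linarith
    rw [inv_mul_lt_iff₀ hR] at h6
    nlinarith
  rcases lt_or_gt_of_ne hij with h | h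
  · exact key i j h (by omega) hfij
  · exact key j i h (by omega) hfij.symm

end Pack

end Pool.Agent.TH162.FC
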