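import Pool.Agent.TH162.FC.Defs

/-!
# Quasi-Moebius embeddings for a visual metric
-/

set_option autoImplicit false

open Filter Topology Set Pool.Agent.TH289.C

namespace Pool.Agent.TH162.FC

variable {G : Type} [Group G] {X : Type} [MetricSpace X]

/-- The action is uniformly quasi-Moebius for the metric of `X` (as the action of a hyperbolic group
on its boundary with a visual metric): 4-tuples with cross ratio at most `t` are mapped to 4-tuples
with cross ratio at most `T = T(t)`. -/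
def UniformlyQuasiMoebius (α : Action G X) : Prop :=
  ∀ t : ℝ, ∃ T : ℝ, ∀ (g : G) (a b c d : X), Distinct4 a b c d → cr a b c d ≤ t →
    cr (α.map g a) (α.map g b) (α.map g c) (α.map g d) ≤ T

/-- There is a quasi-Moebius embedding `f` of the metric space `X` in `S^n`: 4-tuples with cross
ratio at most `t` are mapped to 4-tuples with cross ratio at most `T = T(t)`, and `T(t)` can be
chosen so that it tends to `0` with `t`. -/
def QuasiMoebiusEmbeds (X : Type) [MetricSpace X] (n : ℕ) : Prop :=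
  ∃ f : X → Sn n, Continuous f ∧ Function.Injective f ∧
    (∀ t : ℝ, ∃ T : ℝ, ∀ a b c d : X, Distinct4 a b c d → cr a b c d ≤ t →
      cr (f a) (f b) (f c) (f d) ≤ T) ∧
    ∀ T : ℝ, 0 < T → ∃ t : ℝ, 0 < t ∧ ∀ a b c d : X, Distinct4 a b c d → cr a b c d ≤ t →
      cr (f a) (f b) (f c) (f d) ≤ T

theorem exists_diam [CompactSpace X] : ∃ D : ℝ, 0 < D ∧ ∀ x y : X, dist x y ≤ D := by
  obtain ⟨D, hD⟩ := Metric.isBounded_iff.1 (isCompact_univ (X := X)).isBounded
  exact ⟨max D 1, lt_max_of_lt_right one_pos, fun x y =>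
    (hD (mem_univ x) (mem_univ y)).trans (le_max_left _ _)⟩

/-- Second half of the condition for the action, by passing to inverses. -/
theorem self_small {α : Action G X} (h : UniformlyQuasiMoebius α) (s : ℝ) (hs : 0 < s) :
    ∃ r : ℝ, 0 < r ∧ ∀ (g : G) (a b c d : X), Distinct4 a b c d → cr a b c d ≤ r →
      cr (α.map g a) (α.map g b) (α.map g c) (α.map g d) ≤ s := by
  obtain ⟨T, hT⟩ := h s⁻¹
  refine ⟨(2 * max T 1)⁻¹, by positivity, fun g a b c d hd hcr => ?_⟩
  by_contra hlt
  push Not at hlt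
  have hinv : ∀ x, α.map g⁻¹ (α.map g x) = x := fun x => by
    rw [← α.map_mul, inv_mul_cancel, α.map_one]
  have hinj : Function.Injective (α.map g) := Function.LeftInverse.injective hinv
  have hd' := hd.map hinj
  have h1 : cr (α.map g a) (α.map g b) (α.map g d) (α.map g c) ≤ s⁻¹ := by
    rw [cr_swap]
    exact inv_anti₀ hs hlt.le
  have h2 := hT g⁻¹ _ _ _ _ hd'.swap h1
  rw [hinv, hinv, hinv, hinv, cr_swap] at h2
  have h4 := cr_pos hd
  have hm : 0 < max T 1 := lt_max_of_lt_right one_pos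
  have h5 : (max T 1)⁻¹ ≤ cr a b c d := by
    rw [inv_le_comm₀ hm h4]
    exact h2.trans (le_max_left _ _)
  have h6 : (2 * max T 1)⁻¹ < (max T 1)⁻¹ := by
    rw [inv_lt_inv₀ (by positivity) hm]
    linarith
  linarith

/-- An equivariantly quasi-Moebius embedding is quasi-Moebius. -/
theorem qm_of_uqm [CompactSpace X] {α : Action G X} (hco : TripleCocompact α)
    (hself : UniformlyQuasiMoebius α) {n : ℕ} (h : UniformlyQuasiMoebiusEmbeds α n) :
    QuasiMoebiusEmbeds X n := by
  obtain ⟨f, hf, hinj, h1, h2⟩ := h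
  obtain ⟨ε, hε, hco⟩ := hco
  obtain ⟨D, hD, hdiam⟩ := exists_diam (X := X)
  obtain ⟨D', hD', hdiam'⟩ : ∃ D : ℝ, 0 < D ∧ ∀ x y : Sn n, dist x y ≤ D := by
    have : CompactSpace (Sn n) := inferInstanceAs (CompactSpace (Metric.sphere (0 : Euc n) 1))
    exact exists_diam
  have hinvm : ∀ g x, α.map g⁻¹ (α.map g x) = x := fun g x => by
    rw [← α.map_mul, inv_mul_cancel, α.map_one]
  have hginj : ∀ g, Function.Injective (α.map g) := fun g =>
    Function.LeftInverse.injective (hinvm g)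
  -- lower bounds for the distances of images
  have hlow : ∀ δ : ℝ, 0 < δ → ∃ m : ℝ, 0 < m ∧ ∀ x y : X, δ ≤ dist x y → m ≤ dist (f x) (f y) := by
    intro δ hδ
    have hK : IsCompact {p : X × X | δ ≤ dist p.1 p.2} :=
      (isClosed_le continuous_const continuous_dist).isCompact
    obtain ⟨m, hm, hm'⟩ := hK.exists_forall_le' (f := fun p : X × X => dist (f p.1) (f p.2))
      (a := 0) (by fun_prop) (fun p hp => by
        refine dist_pos.2 (hinj.ne ?_)
        intro h
        simp only [Set.mem_ofPred_eq, h, dist_self] at hp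
        linarith)
    exact ⟨m, hm, fun x y hxy => hm' (x, y) hxy⟩
  -- a triple which is separated and a bounded cross ratio: the fourth point is far from the first
  have hfar : ∀ t : ℝ, ∃ δ : ℝ, 0 < δ ∧ ∀ a b c d : X, Distinct4 a b c d → ε ≤ dist a b →
      ε ≤ dist b c → ε ≤ dist a c → cr a b c d ≤ t → δ ≤ dist a d := by
    intro t
    have ht : 0 < max t 1 := lt_max_of_lt_right one_pos
    refine ⟨min (ε / 2) (ε * (ε / 2) / (max t 1 * D)), by positivity, ?_⟩
    intro a b c d hd hab hbc hac hcr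
    by_cases hbd : ε / 2 ≤ dist b d
    · refine (min_le_right _ _).trans ?_
      rw [div_le_iff₀ (by positivity)]
      have h3 := (cr_le_iff hd _).1 (hcr.trans (le_max_left t 1))
      have h4 : ε * (ε / 2) ≤ dist a c * dist b d :=
        mul_le_mul hac hbd (by positivity) (hε.le.trans hac)
      have h5 : max t 1 * (dist a d * dist b c) ≤ max t 1 * (dist a d * D) := by
        gcongr
        exact hdiam _ _
      calc ε * (ε / 2) ≤ max t 1 * (dist a d * D) := h4.trans (h3.trans h5)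
        _ = _ := by ring
    · refine (min_le_left _ _).trans ?_
      push Not at hbd
      have := dist_triangle_right a b d
      linarith
  refine ⟨f, hf, hinj, fun t => ?_, fun T hT => ?_⟩
  · obtain ⟨T₁, hT₁⟩ := hself t
    obtain ⟨δ, hδ, hδ'⟩ := hfar T₁
    obtain ⟨m₁, hm₁, hm₁'⟩ := hlow δ hδ
    obtain ⟨m₂, hm₂, hm₂'⟩ := hlow ε hε
    obtain ⟨T, hT⟩ := h1 (D' * D' / (m₁ * m₂))
    refine ⟨T, fun a b c d hd hcr => ?_⟩
    obtain ⟨g, g1, g2, g3⟩ := hco a b c hd.1 hd.2.2.2.1 hd.2.1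
    have hd' := hd.map (hginj g)
    have h3 := hδ' _ _ _ _ hd' g1 g2 g3 (hT₁ g a b c d hd hcr)
    have h4 := hT g⁻¹ _ _ _ _ hd' (by
      unfold cr
      have q1 := hm₁' _ _ h3
      have q2 := hm₂' _ _ g2
      exact div_le_div₀ (by positivity) (mul_le_mul (hdiam' _ _) (hdiam' _ _) dist_nonneg hD'.le)
        (by positivity) (mul_le_mul q1 q2 hm₂.le (hm₁.le.trans q1)))
    rwa [hinvm, hinvm, hinvm, hinvm] at h4
  · obtain ⟨t₂, ht₂, ht₂'⟩ := h2 T hT
    obtain ⟨δ, hδ, hδ'⟩ := hfar 1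
    obtain ⟨m₁, hm₁, hm₁'⟩ := hlow δ hδ
    obtain ⟨m₂, hm₂, hm₂'⟩ := hlow ε hε
    -- uniform continuity of `f`
    obtain ⟨ρ, hρ, hρ'⟩ := Metric.uniformContinuous_iff.1
      (CompactSpace.uniformContinuous_of_continuous hf) (t₂ * (m₁ * m₂) / D') (by positivity)
    obtain ⟨r, hr, hr'⟩ := self_small hself (min 1 (ρ * ε / (2 * (D * D)))) (by positivity)
    refine ⟨r, hr, fun a b c d hd hcr => ?_⟩
    obtain ⟨g, g1, g2, g3⟩ := hco a b c hd.1 hd.2.2.2.1 hd.2.1
    have hd' := hd.map (hginj g)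
    have h0 := hr' g a b c d hd hcr
    have h3 := hδ' _ _ _ _ hd' g1 g2 g3 (h0.trans (min_le_left _ _))
    have h5 := (cr_le_iff hd' _).1 (h0.trans (min_le_right _ _))
    have h6 : dist (α.map g b) (α.map g d) < ρ := by
      have k1 : ρ * ε / (2 * (D * D)) *
          (dist (α.map g a) (α.map g d) * dist (α.map g b) (α.map g c)) ≤
          ρ * ε / (2 * (D * D)) * (D * D) := by
        gcongr <;> exact hdiam _ _
      have k2 : ρ * ε / (2 * (D * D)) * (D * D) = ρ * ε / 2 := by field_simp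
      have k3 : ε * dist (α.map g b) (α.map g d) ≤
          dist (α.map g a) (α.map g c) * dist (α.map g b) (α.map g d) := by
        gcongr
      have k4 : ε * dist (α.map g b) (α.map g d) ≤ ρ * ε / 2 := by
        rw [← k2]; exact k3.trans (h5.trans k1)
      nlinarith
    have h7 := hρ' h6
    have h8 := ht₂' g⁻¹ _ _ _ _ hd' (by
      unfold cr
      have q1 := hm₁' _ _ h3
      have q2 := hm₂' _ _ g2
      have q3 : m₁ * m₂ ≤ dist (f (α.map g a)) (f (α.map g d)) *
          dist (f (α.map g b)) (f (α.map g c)) := mul_le_mul q1 q2 hm₂.le (hm₁.le.trans q1)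
      rw [div_le_iff₀ (lt_of_lt_of_le (by positivity) q3)]
      calc _ ≤ D' * (t₂ * (m₁ * m₂) / D') :=
            mul_le_mul (hdiam' _ _) h7.le dist_nonneg hD'.le
        _ = t₂ * (m₁ * m₂) := by field_simp
        _ ≤ _ := mul_le_mul_of_nonneg_left q3 ht₂.le)
    rwa [hinvm, hinvm, hinvm, hinvm] at h8

/-- A quasi-Moebius embedding has bounded cross ratios on finite configurations. -/
theorem fin_of_qm [CompactSpace X] {α : Action G X} (hself : UniformlyQuasiMoebius α) {n : ℕ}
    (U : Set X) (h : QuasiMoebiusEmbeds X n) : FinitelyBounded α U n := by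
  obtain ⟨f, hf, hinj, h1, -⟩ := h
  obtain ⟨D, hD, hdiam⟩ := exists_diam (X := X)
  have hinvm : ∀ g x, α.map g⁻¹ (α.map g x) = x := fun g x => by
    rw [← α.map_mul, inv_mul_cancel, α.map_one]
  have hex : ∀ ε : ℝ, ∃ T : ℝ, 0 < ε → ∀ (h : G) (a b c d : X),
      Sep4 ε (α.map h a) (α.map h b) (α.map h c) (α.map h d) →
        cr (f a) (f b) (f c) (f d) ≤ T := by
    intro ε
    by_cases hε : 0 < ε
    · obtain ⟨T₁, hT₁⟩ := hself (D * D / (ε * ε))
      obtain ⟨T₂, hT₂⟩ := h1 T₁
      refine ⟨T₂, fun _ g a b c d hs => ?_⟩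
      have hd := hs.distinct hε
      have h3 := hT₁ g⁻¹ _ _ _ _ hd (by
        unfold cr
        exact div_le_div₀ (by positivity) (mul_le_mul (hdiam _ _) (hdiam _ _) dist_nonneg hD.le)
          (by positivity) (mul_le_mul hs.2.2.1 hs.2.2.2.1 hε.le (hε.le.trans hs.2.2.1)))
      rw [hinvm, hinvm, hinvm, hinvm] at h3
      have hd2 : Distinct4 a b c d := by
        have key : ∀ {x y : X}, α.map g x ≠ α.map g y → x ≠ y := fun h he => h (by rw [he])
        exact ⟨key hd.1, key hd.2.1, key hd.2.2.1, key hd.2.2.2.1, key hd.2.2.2.2.1,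
          key hd.2.2.2.2.2⟩
      exact hT₂ _ _ _ _ hd2 h3
    · exact ⟨0, fun h => absurd h hε⟩
  choose N hN using hex
  exact ⟨N, fun P _ H δ hδ => ⟨f, hinj.injOn, fun h _ ε hε a _ b _ c _ d _ hs =>
    hN ε (hδ.trans_le hε) h a b c d hs⟩⟩

end Pool.Agent.TH162.FC
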